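import Pool.Agent.Lib_helper76.AM.Words

set_option autoImplicit false

/-!
# Amalgamated products: cyclic words, elliptic elements
-/

namespace Pool.MP_a3a325_al.Am

/-- the `N`-th power of a word -/
def pw {G : Type*} (l : List G) (N : ℕ) : List G := (List.replicate N l).flatten

@[simp] lemma pw_zero {G : Type*} (l : List G) : pw l 0 = [] := rfl
lemma pw_succ {G : Type*} (l : List G) (N : ℕ) : pw l (N + 1) = l ++ pw l N := by
  simp [pw, List.replicate_succ]

variable {G : Type*} [Group G] {X Y : Subgroup G}

lemma pw_length (l : List G) (N : ℕ) : (pw l N).length = N * l.length := by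
  induction N with
  | zero => simp
  | succ N ih => rw [pw_succ, List.length_append, ih]; ring
lemma pw_prod (l : List G) (N : ℕ) : (pw l N).prod = l.prod ^ N := by
  induction N with
  | zero => simp
  | succ N ih => rw [pw_succ, List.prod_append, ih, pow_succ']
lemma pw_add (l : List G) (M N : ℕ) : pw l (M + N) = pw l M ++ pw l N := by
  induction M with
  | zero => simp
  | succ M ih => rw [Nat.succ_add, pw_succ, pw_succ, ih, List.append_assoc]

lemma red_pw {b : Bool} {l : List G} (hl : Red X Y b l) (he : Even l.length) (N : ℕ) :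
    Red X Y b (pw l N) := by
  induction N with
  | zero => simp
  | succ N ih =>
    rw [pw_succ, red_append, fl_even he]
    exact ⟨hl, ih⟩

/-- conjugate into a factor -/
def Ell (X Y : Subgroup G) (g : G) : Prop := ∃ k c, k⁻¹ * g * k ∈ side X Y c

lemma Ell.conj {g : G} (h : Ell X Y g) (t : G) : Ell X Y (t * g * t⁻¹) := by
  obtain ⟨k, c, hk⟩ := h
  refine ⟨t * k, c, ?_⟩
  convert hk using 1
  group

lemma Ell.of_conj {g : G} (t : G) (h : Ell X Y (t⁻¹ * g * t)) : Ell X Y g := by
  have := h.conj t
  convert this using 1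
  group

/-- a word is conjugate to an element of a factor or to a cyclically reduced word -/
theorem cyc_red (n : ℕ) : ∀ {l : List G} {b : Bool} {e : G}, l.length = n → Red X Y b l →
    e ∈ X ⊓ Y → Ell X Y (l.prod * e) ∨ ∃ (k : G) (l' : List G) (b' : Bool), Red X Y b' l' ∧
      l' ≠ [] ∧ Even l'.length ∧ k⁻¹ * (l.prod * e) * k = l'.prod := by
  induction n using Nat.strong_induction_on with
  | _ n ih =>
  intro l b e hn hl he
  cases l with
  | nil =>
    exact Or.inl ⟨1, true, by simpa [side] using he.1⟩
  | cons x l1 =>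
  rcases List.eq_nil_or_concat' l1 with rfl | ⟨l2, z, rfl⟩
  · refine Or.inl ⟨1, b, ?_⟩
    simpa using mul_mem hl.1.1 (mem_side_of_mem_E he b)
  rw [red_cons, red_append, red_singleton] at hl
  obtain ⟨hx, h2, hz⟩ := hl
  rcases Nat.even_or_odd l2.length with hev | hod
  · -- the word has even length
    refine Or.inr ⟨1, x :: (l2 ++ [z * e]), b, ?_, by simp, ?_, ?_⟩
    · rw [red_cons, red_append, red_singleton]
      exact ⟨hx, h2, hz.mul_right he⟩
    · simp only [List.length_cons, List.length_append, List.length_nil, zero_add]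
      exact hev.add even_two
    · simp only [List.prod_cons, List.prod_append, List.prod_nil, mul_one]
      group
  · rw [fl_odd hod, Bool.not_not] at hz
    have hcalc : x⁻¹ * ((x :: (l2 ++ [z])).prod * e) * x = l2.prod * (z * e * x) := by
      simp only [List.prod_cons, List.prod_append, List.prod_nil, mul_one]
      group
    have hside : z * e * x ∈ side X Y b := mul_mem (mul_mem hz.1 (mem_side_of_mem_E he b)) hx.1
    by_cases hE : z * e * x ∈ X ⊓ Y
    · have hlt : l2.length < n := by
        rw [← hn]; simp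
      rcases ih _ hlt rfl h2 hE with h3 | ⟨k, l', b', k1, k2, k3, k4⟩
      · left
        rw [← hcalc] at h3
        exact h3.of_conj x
      · right
        refine ⟨x * k, l', b', k1, k2, k3, ?_⟩
        rw [← k4, ← hcalc]
        group
    · refine Or.inr ⟨x, l2 ++ [z * e * x], !b, ?_, by simp, ?_, ?_⟩
      · rw [red_append, red_singleton, fl_odd hod, Bool.not_not]
        exact ⟨h2, lt_of_notMem hside hE⟩
      · simp only [List.length_append, List.length_cons, List.length_nil, zero_add]
        exact hod.add_odd (by decide)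
      · rw [hcalc, List.prod_append, List.prod_singleton]

theorem red_mem {m : List G} : ∀ {d : Bool}, Red X Y d m → ∀ y ∈ m, ∃ c, y ∈ side X Y c := by
  induction m with
  | nil => simp
  | cons a m ih =>
    intro d hm y hy
    rcases List.mem_cons.1 hy with rfl | hy
    · exact ⟨d, hm.1.1⟩
    · exact ih hm.2 y hy

namespace Amalg

variable (h : Amalg X Y)

include h

theorem nf (g : G) : ∃ (l : List G) (b : Bool) (e : G), Red X Y b l ∧ e ∈ X ⊓ Y ∧
    g = l.prod * e := exists_nf (by rw [h.gen]; trivial)

theorem hyp_not_ell {b : Bool} {l : List G} (hl : Red X Y b l) (hne : l ≠ [])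
    (hev : Even l.length) : ¬ Ell X Y l.prod := by
  rintro ⟨k, c, hk⟩
  obtain ⟨m, d, e, hm, he, rfl⟩ := h.nf k
  obtain ⟨u, hu⟩ : ∃ u, u = (m.prod * e)⁻¹ * l.prod * (m.prod * e) := ⟨_, rfl⟩
  rw [← hu] at hk
  obtain ⟨N, hN⟩ : ∃ N, N = 2 * m.length + 2 := ⟨_, rfl⟩
  have h1 : (pw l N).prod = (m ++ [e * u ^ N * e⁻¹] ++ iv m).prod := by
    rw [pw_prod, List.prod_append, List.prod_append, List.prod_singleton, iv_prod]
    have h2 : l.prod = (m.prod * e) * u * (m.prod * e)⁻¹ := by rw [hu]; group
    rw [h2, conj_pow]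
    group
  obtain ⟨l1, b1, e1, h3, h4, h5, -, -, h6, -⟩ := mul_word (X := X) (Y := Y)
    (m ++ [e * u ^ N * e⁻¹] ++ iv m) (l := []) (b := true) (e := 1) (red_nil _) (one_mem _) (by
      intro y hy
      simp only [List.mem_append, List.mem_singleton] at hy
      have hm' : ∀ y ∈ m, ∃ c, y ∈ side X Y c := by
        exact red_mem hm
      rcases hy with (hy | rfl) | hy
      · exact hm' y hy
      · exact ⟨c, mul_mem (mul_mem (mem_side_of_mem_E he c) (pow_mem hk N))
          (inv_mem (mem_side_of_mem_E he c))⟩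
      · simp only [iv, List.mem_reverse, List.mem_map] at hy
        obtain ⟨a, ha, rfl⟩ := hy
        obtain ⟨c, hc⟩ := hm' a ha
        exact ⟨c, inv_mem hc⟩)
  have h7 : (pw l N).prod * 1 = 1 * (l1.prod * e1) := by
    rw [h1, ← h5]; simp
  have h8 := (h.unique (e := e1⁻¹) (e' := 1) (red_pw hl hev N) h3 (inv_mem h4) (one_mem _) (by
    rw [mul_one, one_mul] at h7
    rw [h7]; group)).1
  rw [pw_length] at h8
  have h9 : 1 ≤ l.length := by
    rcases l with _ | ⟨a, l⟩
    · exact absurd rfl hne
    · simp
  have h10 : N * 1 ≤ N * l.length := Nat.mul_le_mul_left N h9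
  simp only [List.length_append, List.length_cons, List.length_nil, iv_length] at h6
  omega

/-- roots of elliptic elements are elliptic -/
theorem ell_of_pow {g : G} {n : ℕ} (hn : 1 ≤ n) (hg : Ell X Y (g ^ n)) : Ell X Y g := by
  obtain ⟨l, b, e, h1, h2, h3⟩ := h.nf g
  rcases cyc_red l.length rfl h1 h2 with h4 | ⟨k, l', b', k1, k2, k3, k4⟩
  · rwa [h3]
  · exfalso
    have h5 : Ell X Y (pw l' n).prod := by
      rw [pw_prod, ← k4, ← h3]
      have : (k⁻¹ * g * k) ^ n = k⁻¹ * g ^ n * k := by
        have := conj_pow (a := k⁻¹) (b := g) (i := n)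
        simpa using this
      rw [this]
      have := hg.conj k⁻¹
      simpa using this
    refine h.hyp_not_ell (red_pw k1 k3 n) ?_ ?_ h5
    · intro h6
      have := congrArg List.length h6
      rw [pw_length] at this
      simp only [List.length_nil, mul_eq_zero] at this
      rcases this with h7 | h7
      · omega
      · exact k2 (List.length_eq_zero_iff.1 h7)
    · rw [pw_length]
      exact k3.mul_left n

/-- dichotomy -/
theorem ell_or_hyp (g : G) : Ell X Y g ∨ ∃ (k : G) (l' : List G) (b' : Bool), Red X Y b' l' ∧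
      l' ≠ [] ∧ Even l'.length ∧ k⁻¹ * g * k = l'.prod := by
  obtain ⟨l, b, e, h1, h2, h3⟩ := h.nf g
  rcases cyc_red l.length rfl h1 h2 with h4 | h4
  · exact Or.inl (by rwa [h3])
  · exact Or.inr (by rwa [h3])

/-- an element of a factor which is not conjugate in the factor into `X ⊓ Y` -/
theorem conj_mem_side {x g : G} {c d : Bool} (hx : x ∈ side X Y c)
    (hP : ∀ m ∈ side X Y c, m * x * m⁻¹ ∉ X ⊓ Y) (hg : g * x * g⁻¹ ∈ side X Y d) :
    g ∈ side X Y c := by
  obtain ⟨l, b, e, h1, h2, rfl⟩ := h.nf g
  -- replace `x` by `e x e⁻¹`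
  have key : ∀ (n : ℕ) (l : List G) (b : Bool) (x : G), l.length = n → Red X Y b l →
      x ∈ side X Y c → (∀ m ∈ side X Y c, m * x * m⁻¹ ∉ X ⊓ Y) →
      l.prod * x * l.prod⁻¹ ∈ side X Y d → l.prod ∈ side X Y c := by
    intro n l b x _ hl hx hP hd
    have hxE : x ∉ X ⊓ Y := by simpa using hP 1 (one_mem _)
    rcases List.eq_nil_or_concat' l with rfl | ⟨l0, y, rfl⟩
    · simp [one_mem]
    rw [red_append, red_singleton] at hl
    by_cases hc : c = fl b l0.length
    · subst hc
      rcases List.eq_nil_or_concat' l0 with rfl | ⟨l1, y1, rfl⟩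
      · simpa using hl.2.1
      exfalso
      have hx' : y * x * y⁻¹ ∈ side X Y (fl b (l1 ++ [y1]).length) :=
        mul_mem (mul_mem hl.2.1 hx) (inv_mem hl.2.1)
      have hlt : Lt X Y (fl b (l1 ++ [y1]).length) (y * x * y⁻¹) :=
        lt_of_notMem hx' (hP y hl.2.1)
      have hred : Red X Y b ((l1 ++ [y1]) ++ (y * x * y⁻¹) :: iv (l1 ++ [y1])) := by
        rw [red_append, red_cons]
        refine ⟨hl.1, hlt, ?_⟩
        have := hl.1.iv
        rwa [fl_succ'] at this
      refine h.long_notMem hred (by simp; omega) d ?_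
      rw [List.prod_append, List.prod_cons, iv_prod]
      convert hd using 1
      rw [List.prod_append (l₁ := l1 ++ [y1]), List.prod_singleton]
      group
    · exfalso
      have hc' : c = fl b (l0.length + 1) := by
        rw [fl_succ']
        generalize fl b l0.length = f at hc
        cases c <;> cases f <;> simp_all
      have hlt : Lt X Y c x := lt_of_notMem hx hxE
      have hred0 : Red X Y b (l0 ++ [y]) := by
        rw [red_append, red_singleton]
        exact hl
      have hred : Red X Y b ((l0 ++ [y]) ++ x :: iv (l0 ++ [y])) := by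
        rw [red_append, red_cons]
        refine ⟨hred0, by simpa [← hc'] using hlt, ?_⟩
        have := hred0.iv
        rwa [fl_succ'] at this
      refine h.long_notMem hred (by simp; omega) d ?_
      rw [List.prod_append, List.prod_cons, iv_prod]
      convert hd using 1
      group
  have he : e ∈ side X Y c := mem_side_of_mem_E h2 c
  have := key _ l b (e * x * e⁻¹) rfl h1 (mul_mem (mul_mem he hx) (inv_mem he)) (by
    intro m hm
    have := hP (m * e) (mul_mem hm he)
    convert this using 1
    group) (by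
    convert hg using 1
    group)
  exact mul_mem this he

/-- normal form of elliptic elements -/
theorem ell_form {g : G} (hg : Ell X Y g) : (∃ c, g ∈ side X Y c) ∨
    ∃ (l : List G) (b : Bool) (u : G), Red X Y b l ∧ l ≠ [] ∧ Lt X Y (fl b l.length) u ∧
      g = l.prod * u * l.prod⁻¹ := by
  obtain ⟨k, c, hk⟩ := hg
  obtain ⟨l, b, e, h1, h2, rfl⟩ := h.nf k
  obtain ⟨u, hu⟩ : ∃ u, u = e * ((l.prod * e)⁻¹ * g * (l.prod * e)) * e⁻¹ := ⟨_, rfl⟩
  have hgu : g = l.prod * u * l.prod⁻¹ := by rw [hu]; group
  have huc : u ∈ side X Y c := by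
    rw [hu]
    exact mul_mem (mul_mem (mem_side_of_mem_E h2 c) hk) (inv_mem (mem_side_of_mem_E h2 c))
  clear hk hu
  obtain ⟨n, hn⟩ : ∃ n, l.length = n := ⟨_, rfl⟩
  induction n generalizing l b u c with
  | zero =>
    rw [List.length_eq_zero_iff] at hn
    subst hn
    left
    exact ⟨c, by simpa [hgu] using huc⟩
  | succ n ih =>
    rcases List.eq_nil_or_concat' l with rfl | ⟨l0, y, rfl⟩
    · simp at hn
    by_cases hlt : Lt X Y (fl b (l0 ++ [y]).length) u
    · exact Or.inr ⟨l0 ++ [y], b, u, h1, by simp, hlt, hgu⟩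
    · have h1' := h1
      rw [red_append, red_singleton] at h1'
      have hu' : u ∈ side X Y (fl b l0.length) := by
        by_contra hc
        have hcc : c = !(fl b l0.length) := by
          generalize fl b l0.length = f at hc
          cases c <;> cases f <;> simp_all
        subst hcc
        refine hlt ⟨?_, ?_⟩
        · rw [List.length_append, List.length_singleton, fl_succ']
          exact huc
        · rw [List.length_append, List.length_singleton, fl_succ', Bool.not_not]
          exact hc
      refine ih (fl b l0.length) l0 b h1'.1 (y * u * y⁻¹) ?_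
        (mul_mem (mul_mem h1'.2.1 hu') (inv_mem h1'.2.1)) (by simpa using hn)
      rw [hgu, List.prod_append, List.prod_singleton]
      group

/-- if `X ⊓ Y` is closed under roots in both factors, it is so in `G` -/
theorem root_closed (hr : ∀ c, ∀ u ∈ side X Y c, ∀ n, 1 ≤ n → u ^ n ∈ X ⊓ Y → u ∈ X ⊓ Y)
    {g : G} {n : ℕ} (hn : 1 ≤ n) (hg : g ^ n ∈ X ⊓ Y) : g ∈ X ⊓ Y := by
  have h1 : Ell X Y g := h.ell_of_pow hn ⟨1, true, by simpa [side] using hg.1⟩
  rcases h.ell_form h1 with ⟨c, hc⟩ | ⟨l, b, u, h2, h3, h4, rfl⟩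
  · exact hr c g hc n hn hg
  · exfalso
    rw [conj_pow] at hg
    have h5 : u ^ n ∉ X ⊓ Y := fun h6 => h4.notMem (hr _ u h4.1 n hn h6)
    have h6 : Lt X Y (fl b l.length) (u ^ n) := lt_of_notMem (pow_mem h4.1 n) h5
    have hred : Red X Y b (l ++ (u ^ n) :: iv l) := by
      rw [red_append, red_cons]
      refine ⟨h2, h6, ?_⟩
      have := h2.iv
      rwa [fl_succ'] at this
    refine h.prod_notMem hred (by simp) ?_
    rw [List.prod_append, List.prod_cons, iv_prod]
    convert hg using 1
    group

end Amalg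

end Pool.MP_a3a325_al.Am
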