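import Pool.Agent.Lib_helper76.AM.Push

set_option autoImplicit false

/-!
# The dihedral Artin group of an odd label: `⟨x, y | x ^ 2 = y ^ (2 s + 1)⟩`
-/

namespace Pool.MP_a3a325_al.Am

open Monoid Function

/-- the two inclusions of the centre -/
def dmap (s : ℕ) : ∀ _ : Bool, (Multiplicative ℤ →* Multiplicative ℤ)
  | true => powMonoidHom 2
  | false => powMonoidHom (2 * s + 1)

theorem dmap_true (s : ℕ) (h : Multiplicative ℤ) : dmap s true h = h ^ 2 := rfl
theorem dmap_false (s : ℕ) (h : Multiplicative ℤ) : dmap s false h = h ^ (2 * s + 1) := rfl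

theorem mul_pow_inj {n : ℕ} (hn : n ≠ 0) : Injective fun h : Multiplicative ℤ => h ^ n := by
  intro a b hab
  have h1 : (n : ℤ) * Multiplicative.toAdd a = n * Multiplicative.toAdd b := by
    have := congrArg Multiplicative.toAdd hab
    simpa using this
  have h2 : (n : ℤ) ≠ 0 := by exact_mod_cast hn
  exact Multiplicative.toAdd.injective (mul_left_cancel₀ h2 h1)

theorem dmap_inj (s : ℕ) : ∀ b, Injective (dmap s b)
  | true => mul_pow_inj (by omega)
  | false => mul_pow_inj (by omega)

/-- the group `⟨x, y | x ^ 2 = y ^ (2 s + 1)⟩` -/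
abbrev Dih (s : ℕ) : Type := PushoutI (G := fun _ : Bool => Multiplicative ℤ) (dmap s)

/-- the generator `x` -/
def dx (s : ℕ) : Dih s :=
  PushoutI.of (G := fun _ : Bool => Multiplicative ℤ) (φ := dmap s) true (Multiplicative.ofAdd 1)

/-- the generator `y` -/
def dy (s : ℕ) : Dih s :=
  PushoutI.of (G := fun _ : Bool => Multiplicative ℤ) (φ := dmap s) false (Multiplicative.ofAdd 1)

/-- the central element `z` -/
def dz (s : ℕ) : Dih s :=
  PushoutI.base (G := fun _ : Bool => Multiplicative ℤ) (dmap s) (Multiplicative.ofAdd 1)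

/-- the element `w` -/
def dw (s : ℕ) : Dih s := (dy s) ^ (-(s : ℤ)) * dx s

abbrev DX (s : ℕ) : Subgroup (Dih s) := PX (G := fun _ : Bool => Multiplicative ℤ) (dmap s)
abbrev DY (s : ℕ) : Subgroup (Dih s) := PY (G := fun _ : Bool => Multiplicative ℤ) (dmap s)

theorem int_pow (h : Multiplicative ℤ) :
    h = (Multiplicative.ofAdd (1 : ℤ)) ^ (Multiplicative.toAdd h) := by
  apply Multiplicative.toAdd.injective
  simp

variable (s : ℕ)

theorem d_amalg : Amalg (DX s) (DY s) := push_amalg (dmap_inj s)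

theorem of_true_eq (h : Multiplicative ℤ) :
    PushoutI.of (G := fun _ : Bool => Multiplicative ℤ) (φ := dmap s) true h =
      dx s ^ (Multiplicative.toAdd h) := by
  rw [dx, ← map_zpow, ← int_pow]

theorem of_false_eq (h : Multiplicative ℤ) :
    PushoutI.of (G := fun _ : Bool => Multiplicative ℤ) (φ := dmap s) false h =
      dy s ^ (Multiplicative.toAdd h) := by
  rw [dy, ← map_zpow, ← int_pow]

theorem base_eq (h : Multiplicative ℤ) :
    PushoutI.base (G := fun _ : Bool => Multiplicative ℤ) (dmap s) h =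
      dz s ^ (Multiplicative.toAdd h) := by
  rw [dz, ← map_zpow, ← int_pow]

theorem mem_DX {g : Dih s} : g ∈ DX s ↔ ∃ n : ℤ, g = dx s ^ n := by
  constructor
  · rintro ⟨h, rfl⟩
    exact ⟨_, of_true_eq s h⟩
  · rintro ⟨n, rfl⟩
    exact ⟨Multiplicative.ofAdd n, by rw [of_true_eq]; rfl⟩

theorem mem_DY {g : Dih s} : g ∈ DY s ↔ ∃ n : ℤ, g = dy s ^ n := by
  constructor
  · rintro ⟨h, rfl⟩
    exact ⟨_, of_false_eq s h⟩
  · rintro ⟨n, rfl⟩
    exact ⟨Multiplicative.ofAdd n, by rw [of_false_eq]; rfl⟩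

theorem mem_DE {g : Dih s} : g ∈ DX s ⊓ DY s ↔ ∃ n : ℤ, g = dz s ^ n := by
  rw [push_inf (dmap_inj s)]
  constructor
  · rintro ⟨h, rfl⟩
    exact ⟨_, base_eq s h⟩
  · rintro ⟨n, rfl⟩
    exact ⟨Multiplicative.ofAdd n, by rw [base_eq]; rfl⟩

theorem dx_sq : dx s ^ 2 = dz s := by
  have := PushoutI.of_apply_eq_base (G := fun _ : Bool => Multiplicative ℤ) (dmap s) true
    (Multiplicative.ofAdd 1)
  rw [dmap_true, map_pow] at this
  exact this

theorem dy_pow : dy s ^ (2 * s + 1) = dz s := by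
  have := PushoutI.of_apply_eq_base (G := fun _ : Bool => Multiplicative ℤ) (dmap s) false
    (Multiplicative.ofAdd 1)
  rw [dmap_false, map_pow] at this
  exact this

theorem dx_mem_DE {n : ℤ} : dx s ^ n ∈ DX s ⊓ DY s ↔ (2 : ℤ) ∣ n := by
  have h1 := of_mem_inf (G := fun _ : Bool => Multiplicative ℤ) (dmap_inj s) (b := true)
    (g := Multiplicative.ofAdd n)
  rw [of_true_eq] at h1
  rw [show dx s ^ n = dx s ^ (Multiplicative.toAdd (Multiplicative.ofAdd n)) from rfl, h1]
  constructor
  · rintro ⟨h, hh⟩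
    rw [dmap_true] at hh
    refine ⟨Multiplicative.toAdd h, ?_⟩
    have := congrArg Multiplicative.toAdd hh
    simpa using this.symm
  · rintro ⟨k, rfl⟩
    refine ⟨Multiplicative.ofAdd k, ?_⟩
    rw [dmap_true]
    apply Multiplicative.toAdd.injective
    simp [mul_comm]

theorem dy_mem_DE {n : ℤ} : dy s ^ n ∈ DX s ⊓ DY s ↔ ((2 * s + 1 : ℕ) : ℤ) ∣ n := by
  have h1 := of_mem_inf (G := fun _ : Bool => Multiplicative ℤ) (dmap_inj s) (b := false)
    (g := Multiplicative.ofAdd n)
  rw [of_false_eq] at h1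
  rw [show dy s ^ n = dy s ^ (Multiplicative.toAdd (Multiplicative.ofAdd n)) from rfl, h1]
  constructor
  · rintro ⟨h, hh⟩
    rw [dmap_false] at hh
    refine ⟨Multiplicative.toAdd h, ?_⟩
    have := congrArg Multiplicative.toAdd hh
    simpa using this.symm
  · rintro ⟨k, rfl⟩
    refine ⟨Multiplicative.ofAdd k, ?_⟩
    rw [dmap_false]
    apply Multiplicative.toAdd.injective
    simp
    ring

/-- homomorphisms from the group -/
def dlift {K : Type*} [Group K] (x y : K) (h : x ^ 2 = y ^ (2 * s + 1)) : Dih s →* K :=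
  PushoutI.lift (G := fun _ : Bool => Multiplicative ℤ) (φ := dmap s)
    (fun b => match b with
      | true => zpowersHom K x
      | false => zpowersHom K y) (zpowersHom K (x ^ 2)) (by
    intro b
    cases b
    · ext
      simp only [dmap, h, MonoidHom.comp_apply, zpowersHom_apply]
      simp
      exact zpow_natCast y (2 * s + 1)
    · ext
      simp [dmap])

theorem dlift_dx {K : Type*} [Group K] (x y : K) (h : x ^ 2 = y ^ (2 * s + 1)) :
    dlift s x y h (dx s) = x := by
  rw [dlift, dx, PushoutI.lift_of]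
  simp

theorem dlift_dy {K : Type*} [Group K] (x y : K) (h : x ^ 2 = y ^ (2 * s + 1)) :
    dlift s x y h (dy s) = y := by
  rw [dlift, dy, PushoutI.lift_of]
  simp

theorem d_hom_ext {K : Type*} [Group K] {f g : Dih s →* K} (hx : f (dx s) = g (dx s))
    (hy : f (dy s) = g (dy s)) : f = g := by
  apply PushoutI.hom_ext_nonempty
  intro b
  cases b
  · ext
    exact hy
  · ext
    exact hx

/-- the degree -/
def dg : Dih s →* Multiplicative ℤ :=
  dlift s (Multiplicative.ofAdd ((2 * s + 1 : ℕ) : ℤ)) (Multiplicative.ofAdd 2) (by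
    apply Multiplicative.toAdd.injective
    simp
    ring)

theorem dg_dx : dg s (dx s) = Multiplicative.ofAdd ((2 * s + 1 : ℕ) : ℤ) := dlift_dx _ _ _ _
theorem dg_dy : dg s (dy s) = Multiplicative.ofAdd 2 := dlift_dy _ _ _ _
theorem dg_dz : dg s (dz s) = Multiplicative.ofAdd (2 * ((2 * s + 1 : ℕ) : ℤ)) := by
  rw [← dx_sq, map_pow, dg_dx]
  apply Multiplicative.toAdd.injective
  simp
  ring
theorem dg_dw : dg s (dw s) = Multiplicative.ofAdd 1 := by
  rw [dw, map_mul, map_zpow, dg_dx, dg_dy]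
  apply Multiplicative.toAdd.injective
  simp only [toAdd_mul, toAdd_zpow, toAdd_ofAdd, smul_eq_mul]
  push_cast
  ring

variable {s}

theorem dw_zpow_ne {n : ℤ} (h : dw s ^ n = 1) : n = 0 := by
  have := congrArg (dg s) h
  rw [map_zpow, dg_dw, map_one (dg s)] at this
  have := congrArg Multiplicative.toAdd this
  simp only [toAdd_zpow, toAdd_ofAdd, toAdd_one, smul_eq_mul, mul_one] at this
  exact this

theorem dx_zpow_ne {n : ℤ} (h : dx s ^ n = 1) : n = 0 := by
  have := congrArg (dg s) h
  rw [map_zpow, dg_dx, map_one] at this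
  have := congrArg Multiplicative.toAdd this
  simp only [toAdd_zpow, toAdd_ofAdd, toAdd_one, smul_eq_mul, mul_eq_zero] at this
  omega

theorem dy_zpow_ne {n : ℤ} (h : dy s ^ n = 1) : n = 0 := by
  have := congrArg (dg s) h
  rw [map_zpow, dg_dy, map_one] at this
  have := congrArg Multiplicative.toAdd this
  simp only [toAdd_zpow, toAdd_ofAdd, toAdd_one, smul_eq_mul, mul_eq_zero] at this
  omega

theorem dz_zpow_ne {n : ℤ} (h : dz s ^ n = 1) : n = 0 := by
  rw [← dx_sq, ← zpow_natCast, ← zpow_mul] at h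
  have := dx_zpow_ne h
  omega

theorem dz_central (g : Dih s) : Commute (dz s) g := by
  have h : (⊤ : Subgroup (Dih s)) ≤ Subgroup.centralizer {dz s} := by
    rw [← (d_amalg s).gen]
    refine sup_le ?_ ?_
    · intro g hg
      obtain ⟨n, rfl⟩ := (mem_DX s).1 hg
      rw [Subgroup.mem_centralizer_singleton_iff, ← dx_sq]
      exact (((Commute.refl (dx s)).pow_left 2).zpow_right n).symm.eq
    · intro g hg
      obtain ⟨n, rfl⟩ := (mem_DY s).1 hg
      rw [Subgroup.mem_centralizer_singleton_iff, ← dy_pow]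
      exact (((Commute.refl (dy s)).pow_left _).zpow_right n).symm.eq
  have := h (Subgroup.mem_top g)
  rw [Subgroup.mem_centralizer_singleton_iff] at this
  exact this.symm

end Pool.MP_a3a325_al.Am
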