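import Pool.Agent.Lib_helper76.AM.Dih

set_option autoImplicit false

/-!
# The dihedral Artin group of an odd label: roots and endomorphisms fixing `w`
-/

namespace Pool.MP_a3a325_al.Am

open Monoid Function

variable {s : ℕ} (hs : 1 ≤ s)

include hs

theorem dw_red : Red (DX s) (DY s) false [dy s ^ (-(s : ℤ)), dx s] := by
  refine ⟨lt_of_notMem ((mem_DY s).2 ⟨_, rfl⟩) ?_, ?_⟩
  · rw [dy_mem_DE]
    intro h
    rw [Int.dvd_neg] at h
    have := Int.le_of_dvd (by omega) h
    push_cast at this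
    omega
  · rw [red_singleton]
    refine lt_of_notMem ((mem_DX s).2 ⟨1, by simp⟩) ?_
    have := (dx_mem_DE s (n := 1)).not
    rw [zpow_one] at this
    rw [this]
    norm_num

theorem dw_pow_mem {N : ℕ} (h : dw s ^ N ∈ DX s ⊓ DY s) : N = 0 := by
  by_contra hN
  have hred := red_pw (dw_red hs) (by simp) N
  refine (d_amalg s).prod_notMem hred ?_ ?_
  · intro h0
    have := congrArg List.length h0
    rw [pw_length] at this
    simp at this
    exact hN this
  · rw [pw_prod]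
    simpa [dw] using h

theorem dw_zpow_mem {n : ℤ} (h : dw s ^ n ∈ DX s ⊓ DY s) : n = 0 := by
  rcases Int.le_total 0 n with h0 | h0
  · obtain ⟨N, rfl⟩ := Int.eq_ofNat_of_zero_le h0
    have := dw_pow_mem hs (N := N) (by simpa using h)
    simp [this]
  · obtain ⟨N, hN⟩ := Int.eq_ofNat_of_zero_le (show 0 ≤ -n by omega)
    have h1 : dw s ^ N ∈ DX s ⊓ DY s := by
      have := inv_mem h
      rw [← zpow_neg, hN] at this
      simpa using this
    have := dw_pow_mem hs h1
    omega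

theorem d_centre {g : Dih s} (h : ∀ k, Commute g k) : ∃ n : ℤ, g = dz s ^ n := by
  rw [← mem_DE]
  have hx : dx s ∉ DX s ⊓ DY s := by
    have := (dx_mem_DE s (n := 1)).not
    rw [zpow_one] at this
    rw [this]
    norm_num
  have hy : dy s ∉ DX s ⊓ DY s := by
    have := (dy_mem_DE s (n := 1)).not
    rw [zpow_one] at this
    rw [this]
    intro h
    have := Int.le_of_dvd one_pos h
    push_cast at this
    omega
  refine ⟨?_, ?_⟩
  · refine (d_amalg s).conj_mem_side (x := dx s) (c := true) (d := true)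
      ((mem_DX s).2 ⟨1, by simp⟩) ?_ ?_
    · intro m hm
      obtain ⟨n, rfl⟩ := (mem_DX s).1 hm
      have : dx s ^ n * dx s * (dx s ^ n)⁻¹ = dx s := by group
      rwa [this]
    · rw [(h (dx s)).eq, mul_assoc, mul_inv_cancel, mul_one]
      exact (mem_DX s).2 ⟨1, by simp⟩
  · refine (d_amalg s).conj_mem_side (x := dy s) (c := false) (d := false)
      ((mem_DY s).2 ⟨1, by simp⟩) ?_ ?_
    · intro m hm
      obtain ⟨n, rfl⟩ := (mem_DY s).1 hm
      have : dy s ^ n * dy s * (dy s ^ n)⁻¹ = dy s := by group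
      rwa [this]
    · rw [(h (dy s)).eq, mul_assoc, mul_inv_cancel, mul_one]
      exact (mem_DY s).2 ⟨1, by simp⟩

omit hs in
theorem d_torsion {g : Dih s} {n : ℕ} (hn : 1 ≤ n) (h : g ^ n = 1) : g = 1 := by
  have h1 : Ell (DX s) (DY s) g := (d_amalg s).ell_of_pow hn ⟨1, true, by
    rw [h]; simp [side]⟩
  obtain ⟨k, c, hk⟩ := h1
  have h2 : (k⁻¹ * g * k) ^ n = 1 := by
    have := conj_pow (a := k⁻¹) (b := g) (i := n)
    rw [inv_inv] at this
    rw [this, h]
    group
  have h3 : k⁻¹ * g * k = 1 := by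
    cases c
    · obtain ⟨i, hi⟩ := (mem_DY s).1 hk
      rw [hi, ← zpow_natCast, ← zpow_mul] at h2
      have := dy_zpow_ne h2
      have hi0 : i = 0 := by
        rcases mul_eq_zero.1 this with h | h
        · exact h
        · omega
      rw [hi, hi0, zpow_zero]
    · obtain ⟨i, hi⟩ := (mem_DX s).1 hk
      rw [hi, ← zpow_natCast, ← zpow_mul] at h2
      have := dx_zpow_ne h2
      have hi0 : i = 0 := by
        rcases mul_eq_zero.1 this with h | h
        · exact h
        · omega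
      rw [hi, hi0, zpow_zero]
  have : g = k * (k⁻¹ * g * k) * k⁻¹ := by group
  rw [this, h3]
  group

theorem d_centralizer {g : Dih s} {m : ℕ} (hm : 1 ≤ m) (h : Commute g (dw s ^ m)) :
    ∃ k i : ℤ, g = dw s ^ k * dz s ^ i := by
  obtain ⟨k, e, he, hk⟩ := (d_amalg s).centralizer_two (dw_red hs) (by
    intro e he g
    obtain ⟨n, rfl⟩ := (mem_DE s).1 he
    exact (dz_central g).zpow_left n) (t := g) hm h
  obtain ⟨i, rfl⟩ := (mem_DE s).1 he
  exact ⟨k, i, hk⟩

theorem d_root {g : Dih s} {n : ℕ} (hn : 1 ≤ n) {j : ℤ} (h : g ^ n = dw s ^ j) :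
    ∃ k : ℤ, g = dw s ^ k := by
  by_cases hj : j = 0
  · subst hj
    exact ⟨0, by rw [zpow_zero]; exact d_torsion hn (by simpa using h)⟩
  have hc : Commute g (dw s ^ j) := by
    rw [← h]
    exact (Commute.refl g).pow_right n
  have hc2 : Commute g (dw s ^ j.natAbs) := by
    rcases Int.natAbs_eq j with h1 | h1
    · rw [h1, zpow_natCast] at hc
      exact hc
    · rw [h1, zpow_neg, zpow_natCast, Commute.inv_right_iff] at hc
      exact hc
  obtain ⟨k, i, hk⟩ := d_centralizer hs (m := j.natAbs) (by omega) hc2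
  have h3 : dz s ^ (i * n) = dw s ^ (j - k * n) := by
    have hcm : Commute (dw s ^ k) (dz s ^ i) := ((dz_central (dw s)).symm.zpow_left k).zpow_right i
    rw [hk, hcm.mul_pow, ← zpow_natCast, ← zpow_natCast, ← zpow_mul, ← zpow_mul] at h
    rw [zpow_sub, ← h, zpow_mul, zpow_mul]
    rw [show (dw s ^ k) ^ (n : ℤ) * (dz s ^ i) ^ (n : ℤ) = (dz s ^ i) ^ (n : ℤ) *
      (dw s ^ k) ^ (n : ℤ) from ((hcm.zpow_left n).zpow_right n).eq]
    group
  have h4 : j - k * n = 0 := dw_zpow_mem hs (by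
    rw [← h3]; exact (mem_DE s).2 ⟨_, rfl⟩)
  rw [h4, zpow_zero] at h3
  have h5 := dz_zpow_ne h3
  have hi0 : i = 0 := by
    rcases mul_eq_zero.1 h5 with h | h
    · exact h
    · omega
  exact ⟨k, by rw [hk, hi0]; simp⟩

omit hs in
theorem d_norm {g : Dih s} {j : ℤ} (h : g⁻¹ * dw s * g = dw s ^ j) : Commute g (dw s) := by
  have h1 := congrArg (dg s) h
  rw [map_mul, map_mul, map_inv, map_zpow, dg_dw] at h1
  have h2 := congrArg Multiplicative.toAdd h1
  simp only [toAdd_mul, toAdd_inv, toAdd_ofAdd, toAdd_zpow, smul_eq_mul, mul_one] at h2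
  have hj : j = 1 := by omega
  rw [hj, zpow_one] at h
  have : dw s * g = g * dw s := by
    calc dw s * g = g * (g⁻¹ * dw s * g) := by group
      _ = _ := by rw [h]
  exact this.symm

omit hs in
theorem d_hom_triv {A : Type*} [CommGroup A] (f : Dih s →* A) (h : f (dw s) = 1) (g : Dih s) :
    f g = 1 := by
  have h1 : f (dx s) = f (dy s) ^ (s : ℤ) := by
    rw [dw, map_mul, map_zpow, zpow_neg, inv_mul_eq_one] at h
    exact h.symm
  have h2 : f (dx s) ^ 2 = f (dy s) ^ (2 * s + 1) := by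
    rw [← map_pow, ← map_pow, dx_sq, dy_pow]
  have h3 : f (dy s) = 1 := by
    rw [h1, zpow_natCast, ← pow_mul, mul_comm s 2, pow_succ] at h2
    exact (left_eq_mul.1 h2)
  have h4 : f (dx s) = 1 := by rw [h1, h3, one_zpow]
  have : f = 1 := d_hom_ext s (by simpa using h4) (by simpa using h3)
  rw [this]; rfl

theorem d_dxy_ne : ¬ Commute (dx s) (dy s) := by
  intro hc
  have : dw s ^ (2 : ℕ) ∈ DX s ⊓ DY s := by
    have h1 : dw s ^ 2 = dy s ^ (-(2 * s : ℤ)) * dx s ^ 2 := by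
      have hcm : Commute (dy s ^ (-(s : ℤ))) (dx s) := hc.symm.zpow_left _
      rw [dw, hcm.mul_pow, ← zpow_natCast, ← zpow_mul]
      congr 2
      push_cast
      ring
    rw [h1, dx_sq, ← dy_pow, ← zpow_natCast, ← zpow_add]
    have e : (-(2 * s : ℤ) + ((2 * s + 1 : ℕ) : ℤ)) = 1 := by push_cast; ring
    rw [e, zpow_one]
    exfalso
    -- then `w = y ^ (-s) x` satisfies `w ^ 2 = y`
    have h2 : dw s ^ 2 = dy s := by
      rw [h1, dx_sq, ← dy_pow, ← zpow_natCast, ← zpow_add, e, zpow_one]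
    have h3 : dw s ^ (2 * (2 * s + 1)) ∈ DX s ⊓ DY s := by
      rw [pow_mul, h2, dy_pow]
      exact (mem_DE s).2 ⟨1, by simp⟩
    have := dw_pow_mem hs h3
    omega
  have := dw_pow_mem hs this
  omega

theorem d_nonmet : ¬ Commute (dx s * dy s * (dx s)⁻¹ * (dy s)⁻¹)
    (dx s * dy s ^ (2 : ℤ) * (dx s)⁻¹ * (dy s ^ (2 : ℤ))⁻¹) := by
  intro hc
  have hxL : ∀ n : ℤ, ¬ (2 : ℤ) ∣ n → Lt (DX s) (DY s) true (dx s ^ n) := fun n hn =>
    lt_of_notMem ((mem_DX s).2 ⟨n, rfl⟩) (by rwa [dx_mem_DE])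
  have hyL : ∀ n : ℤ, ¬ ((2 * s + 1 : ℕ) : ℤ) ∣ n → Lt (DX s) (DY s) false (dy s ^ n) :=
    fun n hn => lt_of_notMem ((mem_DY s).2 ⟨n, rfl⟩) (by rwa [dy_mem_DE])
  have hx1 := hxL 1 (by norm_num)
  have hx2 := hxL (-1) (by norm_num)
  have hdv : ∀ n : ℤ, 1 ≤ n → n ≤ 2 → ¬ ((2 * s + 1 : ℕ) : ℤ) ∣ n := by
    intro n h1 h2 h3
    have := Int.le_of_dvd (by omega) h3
    push_cast at this
    omega
  have hy1 := hyL 1 (hdv 1 (by norm_num) (by norm_num))
  have hy2 := hyL 2 (hdv 2 (by norm_num) (by norm_num))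
  have hy1' := hyL (-1) (by rw [Int.dvd_neg]; exact hdv 1 (by norm_num) (by norm_num))
  have hy2' := hyL (-2) (by rw [Int.dvd_neg]; exact hdv 2 (by norm_num) (by norm_num))
  have hred : Red (DX s) (DY s) true [dx s ^ (1 : ℤ), dy s ^ (1 : ℤ), dx s ^ (-1 : ℤ),
      dy s ^ (-1 : ℤ), dx s ^ (1 : ℤ), dy s ^ (2 : ℤ), dx s ^ (-1 : ℤ), dy s ^ (-1 : ℤ),
      dx s ^ (1 : ℤ), dy s ^ (-1 : ℤ), dx s ^ (-1 : ℤ), dy s ^ (2 : ℤ), dx s ^ (1 : ℤ),
      dy s ^ (-2 : ℤ), dx s ^ (-1 : ℤ)] := by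
    simp only [red_cons, Bool.not_true, Bool.not_false, red_nil, and_true]
    exact ⟨hx1, hy1, hx2, hy1', hx1, hy2, hx2, hy1', hx1, hy1', hx2, hy2, hx1, hy2', hx2⟩
  refine (d_amalg s).red true _ hred (by simp) ?_
  have h1 : (dx s * dy s * (dx s)⁻¹ * (dy s)⁻¹) *
      (dx s * dy s ^ (2 : ℤ) * (dx s)⁻¹ * (dy s ^ (2 : ℤ))⁻¹) *
      (dx s * dy s * (dx s)⁻¹ * (dy s)⁻¹)⁻¹ *
      (dx s * dy s ^ (2 : ℤ) * (dx s)⁻¹ * (dy s ^ (2 : ℤ))⁻¹)⁻¹ = 1 := by
    rw [hc.eq]
    group
  rw [← h1]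
  simp only [List.prod_cons, List.prod_nil, mul_one]
  group

/-- a surjective endomorphism which fixes `w` is the conjugation by a power of `w` -/
theorem d_surj (f : Dih s →* Dih s) (hf : Surjective f) (hw : f (dw s) = dw s) :
    ∃ k : ℤ, ∀ g, f g = dw s ^ k * g * (dw s ^ k)⁻¹ := by
  -- the degree is preserved
  have hdeg : ∀ g, dg s (f g) = dg s g := by
    intro g
    have h := d_hom_triv (((dg s).comp f) * (dg s)⁻¹) (by simp [hw]) g
    simp only [MonoidHom.mul_apply, MonoidHom.comp_apply, MonoidHom.inv_apply] at h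
    exact mul_inv_eq_one.1 h
  -- the centre
  have hz : f (dz s) = dz s := by
    obtain ⟨n, hn⟩ := d_centre hs (g := f (dz s)) (by
      intro k
      obtain ⟨l, rfl⟩ := hf k
      exact (dz_central l).map f)
    have h1 := hdeg (dz s)
    rw [hn, map_zpow, dg_dz] at h1
    have h2 := congrArg Multiplicative.toAdd h1
    simp only [toAdd_zpow, toAdd_ofAdd, smul_eq_mul] at h2
    have h3 : n = 1 := by
      have h4 : (2 * ((2 * s + 1 : ℕ) : ℤ)) ≠ 0 := by positivity
      have h5 : n * (2 * ((2 * s + 1 : ℕ) : ℤ)) = 1 * (2 * ((2 * s + 1 : ℕ) : ℤ)) := by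
        rw [h2]; ring
      exact mul_right_cancel₀ h4 h5
    rw [hn, h3, zpow_one]
  -- the image of `x`
  have hx : ∃ g, f (dx s) = g * dx s * g⁻¹ := by
    have h1 : Ell (DX s) (DY s) (f (dx s)) := (d_amalg s).ell_of_pow (n := 2) (by norm_num)
      ⟨1, true, by
        rw [← map_pow, dx_sq, hz]
        simpa [side] using ((mem_DE s).2 ⟨1, by simp⟩ : dz s ∈ DX s ⊓ DY s).1⟩
    obtain ⟨k, c, hk⟩ := h1
    have h2 : f (dx s) = k * (k⁻¹ * f (dx s) * k) * k⁻¹ := by group
    have h3 : dg s (k⁻¹ * f (dx s) * k) = Multiplicative.ofAdd ((2 * s + 1 : ℕ) : ℤ) := by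
      rw [map_mul, map_mul, map_inv, hdeg, dg_dx, mul_comm, ← mul_assoc, mul_inv_cancel, one_mul]
    cases c
    · exfalso
      obtain ⟨i, hi⟩ := (mem_DY s).1 hk
      rw [hi, map_zpow, dg_dy] at h3
      have h4 := congrArg Multiplicative.toAdd h3
      simp only [toAdd_zpow, toAdd_ofAdd, smul_eq_mul] at h4
      push_cast at h4
      omega
    · obtain ⟨i, hi⟩ := (mem_DX s).1 hk
      rw [hi, map_zpow, dg_dx] at h3
      have h4 := congrArg Multiplicative.toAdd h3
      simp only [toAdd_zpow, toAdd_ofAdd, smul_eq_mul] at h4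
      have h5 : i = 1 := by
        have h6 : ((2 * s + 1 : ℕ) : ℤ) ≠ 0 := by positivity
        have h7 : i * ((2 * s + 1 : ℕ) : ℤ) = 1 * ((2 * s + 1 : ℕ) : ℤ) := by rw [h4]; ring
        exact mul_right_cancel₀ h6 h7
      refine ⟨k, ?_⟩
      rw [h5, zpow_one] at hi
      rw [hi] at h2
      exact h2
  -- the image of `y`
  have hy : ∃ g, f (dy s) = g * dy s * g⁻¹ := by
    have h1 : Ell (DX s) (DY s) (f (dy s)) := (d_amalg s).ell_of_pow (n := 2 * s + 1) (by omega)
      ⟨1, true, by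
        rw [← map_pow, dy_pow, hz]
        simpa [side] using ((mem_DE s).2 ⟨1, by simp⟩ : dz s ∈ DX s ⊓ DY s).1⟩
    obtain ⟨k, c, hk⟩ := h1
    have h2 : f (dy s) = k * (k⁻¹ * f (dy s) * k) * k⁻¹ := by group
    have h3 : dg s (k⁻¹ * f (dy s) * k) = Multiplicative.ofAdd 2 := by
      rw [map_mul, map_mul, map_inv, hdeg, dg_dy, mul_comm, ← mul_assoc, mul_inv_cancel, one_mul]
    cases c
    · obtain ⟨i, hi⟩ := (mem_DY s).1 hk
      rw [hi, map_zpow, dg_dy] at h3
      have h4 := congrArg Multiplicative.toAdd h3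
      simp only [toAdd_zpow, toAdd_ofAdd, smul_eq_mul] at h4
      have h5 : i = 1 := by omega
      refine ⟨k, ?_⟩
      rw [h5, zpow_one] at hi
      rw [hi] at h2
      exact h2
    · exfalso
      obtain ⟨i, hi⟩ := (mem_DX s).1 hk
      rw [hi, map_zpow, dg_dx] at h3
      have h4 := congrArg Multiplicative.toAdd h3
      simp only [toAdd_zpow, toAdd_ofAdd, smul_eq_mul] at h4
      have h5 : ((2 * s + 1 : ℕ) : ℤ) ∣ 2 := ⟨i, by rw [← h4]; ring⟩
      have := Int.le_of_dvd (by norm_num) h5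
      push_cast at this
      omega
  obtain ⟨g, hg⟩ := hx
  obtain ⟨k, hk⟩ := hy
  -- the position of the two conjugates
  have hpos : ∃ i j : ℤ, g⁻¹ * k = dx s ^ i * dy s ^ j := by
    rcases (d_amalg s).dcoset (g⁻¹ * k) with ⟨x, hx, y, hy, h⟩ | ⟨x, hx, y, hy, l, h1, h2, h3, h4⟩
    · obtain ⟨i, rfl⟩ := (mem_DX s).1 hx
      obtain ⟨j, rfl⟩ := (mem_DY s).1 hy
      exact ⟨i, j, h⟩
    · exfalso
      obtain ⟨i, rfl⟩ := (mem_DX s).1 hx
      obtain ⟨j, rfl⟩ := (mem_DY s).1 hy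
      refine (d_amalg s).fold h1 h2 h3 (by
        intro e he
        obtain ⟨n, rfl⟩ := (mem_DE s).1 he
        exact ((dz_central _).zpow_left n).symm) (y0 := dy s) ((mem_DY s).2 ⟨1, by simp⟩) (by
        intro hX
        have h5 : dy s ^ (1 : ℤ) ∈ DX s ⊓ DY s := ⟨by simpa using hX, (mem_DY s).2 ⟨1, rfl⟩⟩
        rw [dy_mem_DE] at h5
        have := Int.le_of_dvd one_pos h5
        push_cast at this
        omega) (Y' := (DY s).comap (MulAut.conj (l.prod⁻¹)).toMonoidHom) (fun u => by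
          rw [Subgroup.mem_comap]; simp) ?_
      rw [eq_top_iff]
      intro u _
      -- `u = (g x ^ i)⁻¹ f v (g x ^ i)`
      obtain ⟨v, hv⟩ := hf ((g * dx s ^ i) * u * (g * dx s ^ i)⁻¹)
      have hu : u = (g * dx s ^ i)⁻¹ * f v * (g * dx s ^ i) := by rw [hv]; group
      rw [hu]
      have hk2 : k = g * dx s ^ i * l.prod * dy s ^ j := by
        have : k = g * (g⁻¹ * k) := by group
        rw [this, h4]; group
      have hfx : ∀ n : ℤ, (g * dx s ^ i)⁻¹ * f (dx s ^ n) * (g * dx s ^ i) = dx s ^ n := by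
        intro n
        rw [map_zpow, hg, conj_zpow]
        group
      have hfy : ∀ n : ℤ, (g * dx s ^ i)⁻¹ * f (dy s ^ n) * (g * dx s ^ i) =
          l.prod * dy s ^ n * l.prod⁻¹ := by
        intro n
        rw [map_zpow, hk, conj_zpow, hk2]
        group
      have hall : ∀ v ∈ DX s ⊔ DY s, (g * dx s ^ i)⁻¹ * f v * (g * dx s ^ i) ∈
          DX s ⊔ (DY s).comap (MulAut.conj (l.prod⁻¹)).toMonoidHom := by
        intro v hv
        rw [Subgroup.sup_eq_closure] at hv
        induction hv using Subgroup.closure_induction with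
        | mem x hx =>
          rcases hx with hx | hx
          · obtain ⟨n, rfl⟩ := (mem_DX s).1 hx
            rw [hfx]
            exact Subgroup.mem_sup_left ((mem_DX s).2 ⟨n, rfl⟩)
          · obtain ⟨n, rfl⟩ := (mem_DY s).1 hx
            rw [hfy]
            refine Subgroup.mem_sup_right ?_
            rw [Subgroup.mem_comap]
            refine (mem_DY s).2 ⟨n, ?_⟩
            simp
            group
        | one => rw [map_one]; simp
        | mul x y _ _ hx hy =>
          have := mul_mem hx hy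
          convert this using 1
          rw [map_mul]
          group
        | inv x _ hx =>
          have := inv_mem hx
          convert this using 1
          rw [map_inv]
          group
      exact hall v (by rw [(d_amalg s).gen]; trivial)
  obtain ⟨i, j, hij⟩ := hpos
  -- `f` is the conjugation by `g x ^ i`
  have hfc : ∀ u, f u = (g * dx s ^ i) * u * (g * dx s ^ i)⁻¹ := by
    have : f = (MulAut.conj (g * dx s ^ i)).toMonoidHom := by
      apply d_hom_ext
      · rw [hg]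
        simp only [MulEquiv.coe_toMonoidHom, MulAut.conj_apply]
        group
      · rw [hk]
        have hk2 : k = g * dx s ^ i * dy s ^ j := by
          have : k = g * (g⁻¹ * k) := by group
          rw [this, hij]; group
        rw [hk2]
        simp only [MulEquiv.coe_toMonoidHom, MulAut.conj_apply]
        group
    intro u
    rw [this]
    simp only [MulEquiv.coe_toMonoidHom, MulAut.conj_apply]
  have hcw : Commute (g * dx s ^ i) (dw s ^ 1) := by
    have h1 := hfc (dw s)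
    rw [hw] at h1
    rw [pow_one]
    show (g * dx s ^ i) * dw s = dw s * (g * dx s ^ i)
    conv_rhs => rw [h1]
    group
  obtain ⟨a, b, hab⟩ := d_centralizer hs le_rfl hcw
  refine ⟨a, fun u => ?_⟩
  rw [hfc, hab]
  have hcu : Commute (dz s ^ b) u := (dz_central u).zpow_left b
  calc dw s ^ a * dz s ^ b * u * (dw s ^ a * dz s ^ b)⁻¹
      = dw s ^ a * (dz s ^ b * u) * (dz s ^ b)⁻¹ * (dw s ^ a)⁻¹ := by group
    _ = dw s ^ a * (u * dz s ^ b) * (dz s ^ b)⁻¹ * (dw s ^ a)⁻¹ := by rw [hcu.eq]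
    _ = _ := by group

end Pool.MP_a3a325_al.Am
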