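import Pool.Agent.Lib_helper76.AM.DihW

set_option autoImplicit false

/-!
# The exceptional Artin groups as rigid amalgamated products
-/

namespace Pool.MP_a3a325_al.Am

open Monoid Function

/-- the two factors: `ℤ` times a dihedral Artin group -/
abbrev EG (r : Bool → ℕ) (b : Bool) : Type := Multiplicative ℤ × Dih (r b)

/-- the amalgamated subgroup -/
abbrev EH : Type := Bool → Multiplicative ℤ

/-- the inclusions -/
def emap (r : Bool → ℕ) (b : Bool) : EH →* EG r b :=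
  (Pi.evalMonoidHom (fun _ : Bool => Multiplicative ℤ) (!b)).prod
    ((zpowersHom (Dih (r b)) (dw (r b))).comp
      (Pi.evalMonoidHom (fun _ : Bool => Multiplicative ℤ) b))

theorem emap_apply (r : Bool → ℕ) (b : Bool) (e : EH) :
    emap r b e = (e (!b), dw (r b) ^ (Multiplicative.toAdd (e b))) := by
  simp [emap]

theorem emap_inj (r : Bool → ℕ) (b : Bool) : Injective (emap r b) := by
  rw [injective_iff_map_eq_one]
  intro e he
  rw [emap_apply, Prod.mk_eq_one] at he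
  have h2 := dw_zpow_ne he.2
  have h3 : e b = 1 := by
    apply Multiplicative.toAdd.injective
    rw [h2, toAdd_one]
  funext c
  rcases Bool.eq_or_eq_not c b with rfl | rfl
  · exact h3
  · exact he.1

variable {r : Bool → ℕ}

theorem mem_emap {b : Bool} {a : Multiplicative ℤ} {δ : Dih (r b)} :
    ((a, δ) : EG r b) ∈ (emap r b).range ↔ ∃ j : ℤ, δ = dw (r b) ^ j := by
  constructor
  · rintro ⟨e, he⟩
    rw [emap_apply, Prod.mk.injEq] at he
    exact ⟨_, he.2.symm⟩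
  · rintro ⟨j, rfl⟩
    refine ⟨fun c => if c = b then Multiplicative.ofAdd j else a, ?_⟩
    rw [emap_apply]
    simp

/-- a group which is the amalgamated product of the two factors -/
structure ExData (r : Bool → ℕ) {P : Type*} [Group P] (X Y : Subgroup P) where
  o : ∀ b, EG r b →* P
  inj : ∀ b, Injective (o b)
  range : ∀ b, (o b).range = side X Y b
  compat : ∀ b e, o b (emap r b e) = o true (emap r true e)
  inf : ∀ b g, o b g ∈ X ⊓ Y ↔ g ∈ (emap r b).range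
  amalg : Amalg X Y

variable {P : Type*} [Group P] {X Y : Subgroup P} (D : ExData r X Y)

namespace ExData

/-- element of a factor -/
def eo (b : Bool) (a : Multiplicative ℤ) (δ : Dih (r b)) : P := D.o b (a, δ)

/-- element of the amalgamated subgroup -/
def base (e : EH) : P := D.o true (emap r true e)

theorem eo_mem {b : Bool} {a : Multiplicative ℤ} {δ : Dih (r b)} :
    D.eo b a δ ∈ X ⊓ Y ↔ ∃ j : ℤ, δ = dw (r b) ^ j := by
  rw [eo, D.inf, mem_emap]

theorem side_eo {b : Bool} {x : P} (hx : x ∈ side X Y b) : ∃ a δ, x = D.eo b a δ := by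
  rw [← D.range] at hx
  obtain ⟨⟨a, δ⟩, rfl⟩ := hx
  exact ⟨a, δ, rfl⟩

theorem eo_side {b : Bool} {a : Multiplicative ℤ} {δ : Dih (r b)} : D.eo b a δ ∈ side X Y b := by
  rw [← D.range]; exact ⟨_, rfl⟩

theorem eo_inj {b : Bool} {a a' : Multiplicative ℤ} {δ δ' : Dih (r b)}
    (h : D.eo b a δ = D.eo b a' δ') : a = a' ∧ δ = δ' := Prod.mk.inj (D.inj b h)

theorem eo_mul {b : Bool} {a a' : Multiplicative ℤ} {δ δ' : Dih (r b)} :
    D.eo b a δ * D.eo b a' δ' = D.eo b (a * a') (δ * δ') := by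
  rw [eo, eo, eo, ← map_mul]; rfl

theorem eo_inv {b : Bool} {a : Multiplicative ℤ} {δ : Dih (r b)} :
    (D.eo b a δ)⁻¹ = D.eo b a⁻¹ δ⁻¹ := by
  rw [eo, eo, ← map_inv]; rfl

theorem eo_pow {b : Bool} {a : Multiplicative ℤ} {δ : Dih (r b)} (n : ℕ) :
    (D.eo b a δ) ^ n = D.eo b (a ^ n) (δ ^ n) := by
  rw [eo, eo, ← map_pow]; rfl

theorem eo_zpow {b : Bool} {a : Multiplicative ℤ} {δ : Dih (r b)} (n : ℤ) :
    (D.eo b a δ) ^ n = D.eo b (a ^ n) (δ ^ n) := by
  rw [eo, eo, ← map_zpow]; rfl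

theorem eo_comm {b : Bool} {a a' : Multiplicative ℤ} {δ δ' : Dih (r b)} :
    Commute (D.eo b a δ) (D.eo b a' δ') ↔ Commute δ δ' := by
  constructor
  · intro h
    have h1 : D.eo b a δ * D.eo b a' δ' = D.eo b a' δ' * D.eo b a δ := h
    rw [eo_mul, eo_mul] at h1
    exact (D.eo_inj h1).2
  · intro h
    show D.eo b a δ * D.eo b a' δ' = D.eo b a' δ' * D.eo b a δ
    rw [eo_mul, eo_mul, mul_comm a, h.eq]

theorem base_eo (b : Bool) (e : EH) :
    D.base e = D.eo b (e (!b)) (dw (r b) ^ (Multiplicative.toAdd (e b))) := by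
  rw [eo, ← emap_apply, D.compat, base]

include D in
theorem rigid (hr : ∀ b, 1 ≤ r b) : Rigid X Y where
  toAmalg := D.amalg
  ab := by
    intro e he e' he'
    obtain ⟨a, δ, rfl⟩ := D.side_eo (mem_side_of_mem_E he true)
    obtain ⟨a', δ', rfl⟩ := D.side_eo (mem_side_of_mem_E he' true)
    rw [D.eo_mem] at he he'
    obtain ⟨i, rfl⟩ := he
    obtain ⟨j, rfl⟩ := he'
    rw [D.eo_comm]
    exact ((Commute.refl _).zpow_left i).zpow_right j
  root := by
    intro c u hu n hn h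
    obtain ⟨a, δ, rfl⟩ := D.side_eo hu
    rw [eo_pow, eo_mem] at h
    obtain ⟨j, hj⟩ := h
    rw [eo_mem]
    exact d_root (hr c) hn hj
  cen := by
    intro c
    refine ⟨D.eo c 1 (dz (r c)), D.eo_side, ?_, ?_, D.eo c 1 (dx (r c)), D.eo_side,
      D.eo c 1 (dy (r c)), D.eo_side, 2, 2 * r c + 1, by norm_num, by omega, ?_, ?_, ?_⟩
    · rw [eo_mem]
      rintro ⟨j, hj⟩
      have h0 : j = 0 := dw_zpow_mem (hr c) (by
        rw [← hj]; exact (mem_DE _).2 ⟨1, by simp⟩)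
      rw [h0, zpow_zero] at hj
      have := dz_zpow_ne (s := r c) (n := 1) (by rw [zpow_one]; exact hj)
      norm_num at this
    · intro x hx
      obtain ⟨a, δ, rfl⟩ := D.side_eo hx
      rw [eo_comm]
      exact dz_central δ
    · rw [eo_pow, one_pow, dx_sq]
    · rw [eo_pow, one_pow, dy_pow]
    · rw [eo_comm]
      exact d_dxy_ne (hr c)
  nonmet := by
    intro c
    refine ⟨D.eo c 1 (dx (r c)), D.eo_side, D.eo c 1 (dy (r c)), D.eo_side,
      D.eo c 1 (dx (r c)), D.eo_side, D.eo c 1 (dy (r c) ^ (2 : ℤ)), D.eo_side, ?_⟩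
    rw [eo_inv, eo_inv, eo_inv, eo_mul, eo_mul, eo_mul, eo_mul, eo_mul, eo_mul, eo_comm]
    exact d_nonmet (hr c)
  norm := by
    intro c x hx h e he
    obtain ⟨a, δ, rfl⟩ := D.side_eo hx
    have h1 := h (D.eo c 1 (dw (r c))) (D.eo_mem.2 ⟨1, by simp⟩)
    rw [eo_inv, eo_mul, eo_mul, eo_mem] at h1
    obtain ⟨j, hj⟩ := h1
    have h2 := d_norm hj
    obtain ⟨a', δ', rfl⟩ := D.side_eo (mem_side_of_mem_E he c)
    rw [eo_mem] at he
    obtain ⟨i, rfl⟩ := he
    rw [eo_comm]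
    exact h2.zpow_right i

/-- the generator of the centre of the factor `!b` in the amalgamated subgroup -/
def W (b : Bool) : P := D.base (Pi.mulSingle b (Multiplicative.ofAdd 1))

theorem W_eo_same (b : Bool) : D.W b = D.eo b 1 (dw (r b)) := by
  rw [W, D.base_eo b]
  congr 1
  · rw [Pi.mulSingle_apply, if_neg (by cases b <;> simp)]
  · rw [Pi.mulSingle_eq_same, toAdd_ofAdd, zpow_one]

theorem W_eo_not (b : Bool) : D.W (!b) = D.eo b (Multiplicative.ofAdd 1) 1 := by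
  rw [W, D.base_eo b]
  congr 1
  · rw [Pi.mulSingle_eq_same]
  · rw [Pi.mulSingle_apply, if_neg (by cases b <;> simp), toAdd_one, zpow_zero]

theorem W_mem (b : Bool) : D.W b ∈ X ⊓ Y := by
  rw [W_eo_same, eo_mem]
  exact ⟨1, by simp⟩

theorem W_zpow {b : Bool} {n : ℤ} (h : D.W b ^ n = 1) : n = 0 := by
  rw [W_eo_same, eo_zpow] at h
  have h1 : D.eo b (1 ^ n) (dw (r b) ^ n) = D.eo b 1 1 := by
    rw [h, eo]
    exact (map_one (D.o b)).symm
  exact dw_zpow_ne (D.eo_inj h1).2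

theorem W_central (b : Bool) : ∀ x ∈ side X Y b, Commute (D.W (!b)) x := by
  intro x hx
  obtain ⟨a, δ, rfl⟩ := D.side_eo hx
  rw [W_eo_not, eo_comm]
  exact Commute.one_left δ

theorem W_unique (hr : ∀ b, 1 ≤ r b) (b : Bool) {e : P} (he : e ∈ X ⊓ Y)
    (hc : ∀ x ∈ side X Y b, Commute e x) : ∃ n : ℤ, e = D.W (!b) ^ n := by
  obtain ⟨a, δ, rfl⟩ := D.side_eo (mem_side_of_mem_E he b)
  rw [eo_mem] at he
  obtain ⟨j, rfl⟩ := he
  have h1 : ∀ k : Dih (r b), Commute (dw (r b) ^ j) k := by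
    intro k
    exact D.eo_comm.1 (hc (D.eo b 1 k) D.eo_side)
  obtain ⟨n, hn⟩ := d_centre (hr b) h1
  have hj : j = 0 := dw_zpow_mem (hr b) (by rw [hn]; exact (mem_DE _).2 ⟨n, rfl⟩)
  refine ⟨Multiplicative.toAdd a, ?_⟩
  rw [W_eo_not, hj, zpow_zero, eo_zpow, one_zpow, ← int_pow a]

theorem W_sign (hr : ∀ b, 1 ≤ r b) (ψ : MulAut P)
    (hψ : ∀ b x, x ∈ side X Y b ↔ ψ x ∈ side X Y b) (b : Bool) :
    ψ (D.W b) = D.W b ∨ ψ (D.W b) = (D.W b)⁻¹ := by
  have key : ∀ ψ : MulAut P, (∀ b x, x ∈ side X Y b ↔ ψ x ∈ side X Y b) →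
      ∃ n : ℤ, ψ (D.W b) = D.W b ^ n := by
    intro ψ hψ
    have h1 : ψ (D.W b) ∈ X ⊓ Y :=
      ⟨(hψ true _).1 (D.W_mem b).1, (hψ false _).1 (D.W_mem b).2⟩
    have h2 := D.W_unique hr (!b) h1 (by
      intro x hx
      have h3 : ψ.symm x ∈ side X Y (!b) := by
        rw [hψ, ψ.apply_symm_apply]; exact hx
      have h4 := (D.W_central (!b) _ h3).map ψ
      rwa [Bool.not_not, ψ.apply_symm_apply] at h4)
    rwa [Bool.not_not] at h2
  obtain ⟨n, hn⟩ := key ψ hψ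
  obtain ⟨m, hm⟩ := key ψ.symm (by
    intro c x
    rw [hψ c (ψ.symm x), ψ.apply_symm_apply])
  have h1 : D.W b = D.W b ^ (n * m) := by
    calc D.W b = ψ (ψ.symm (D.W b)) := (ψ.apply_symm_apply _).symm
      _ = _ := by rw [hm, map_zpow, hn, ← zpow_mul]
  have h2 : n * m = 1 := by
    have h3 : D.W b ^ (n * m - 1) = 1 := by
      rw [zpow_sub, ← h1, zpow_one, mul_inv_cancel]
    have := D.W_zpow h3
    omega
  rcases Int.eq_one_or_neg_one_of_mul_eq_one h2 with h3 | h3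
  · left; rw [hn, h3, zpow_one]
  · right; rw [hn, h3, zpow_neg, zpow_one]

include D in
theorem hom_ext {f g : MulAut P} (h : ∀ b a (δ : Dih (r b)), f (D.eo b a δ) = g (D.eo b a δ)) :
    f = g := by
  have h1 : ∀ x ∈ X ⊔ Y, f x = g x := by
    intro x hx
    rw [Subgroup.sup_eq_closure] at hx
    induction hx using Subgroup.closure_induction with
    | mem x hx =>
      rcases hx with hx | hx
      · obtain ⟨a, δ, rfl⟩ := D.side_eo (b := true) hx
        exact h _ _ _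
      · obtain ⟨a, δ, rfl⟩ := D.side_eo (b := false) hx
        exact h _ _ _
    | one => rw [map_one, map_one]
    | mul x y _ _ hx hy => rw [map_mul, map_mul, hx, hy]
    | inv x _ hx => rw [map_inv, map_inv, hx]
  ext x
  exact h1 x (by rw [D.amalg.gen]; trivial)

/-- an automorphism which preserves both factors and fixes both `W b` is inner -/
theorem inner (hr : ∀ b, 1 ≤ r b) (ψ : MulAut P)
    (hψ : ∀ b x, x ∈ side X Y b ↔ ψ x ∈ side X Y b) (hW : ∀ b, ψ (D.W b) = D.W b) :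
    ∃ g, ψ = MulAut.conj g := by
  have key : ∀ b, ∃ k : ℤ, ∀ (a : Multiplicative ℤ) (δ : Dih (r b)),
      ψ (D.eo b a δ) = D.eo b a (dw (r b) ^ k * δ * (dw (r b) ^ k)⁻¹) := by
    intro b
    have hmem : ∀ g : EG r b, ψ (D.o b g) ∈ (D.o b).range := by
      intro g
      rw [D.range, ← hψ, ← D.range]
      exact ⟨g, rfl⟩
    let Ψ : EG r b →* EG r b :=
      (MonoidHom.ofInjective (D.inj b)).symm.toMonoidHom.comp
        ((ψ.toMonoidHom.comp (D.o b)).codRestrict _ hmem)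
    have hΨ : ∀ g, D.o b (Ψ g) = ψ (D.o b g) := by
      intro g
      exact MonoidHom.apply_ofInjective_symm (D.inj b) _
    have hΨe : ∀ a δ a' δ', ψ (D.eo b a δ) = D.eo b a' δ' → Ψ (a, δ) = (a', δ') := by
      intro a δ a' δ' h
      exact D.inj b ((hΨ _).trans h)
    have h1 : Ψ (1, dw (r b)) = (1, dw (r b)) := hΨe _ _ _ _ (by
      rw [← W_eo_same, hW])
    have h2 : ∀ a, Ψ (a, 1) = (a, 1) := by
      intro a
      have h3 : Ψ (Multiplicative.ofAdd 1, 1) = (Multiplicative.ofAdd 1, 1) :=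
        hΨe _ _ _ _ (by rw [← W_eo_not, hW])
      have h4 : ((a, 1) : EG r b) = (Multiplicative.ofAdd 1, 1) ^ (Multiplicative.toAdd a) := by
        rw [Prod.ext_iff]
        refine ⟨?_, ?_⟩
        · rw [Prod.pow_fst]; exact int_pow a
        · rw [Prod.pow_snd, one_zpow]
      rw [h4, map_zpow, h3]
    let f : Dih (r b) →* Dih (r b) :=
      (MonoidHom.snd (Multiplicative ℤ) (Dih (r b))).comp
        (Ψ.comp (MonoidHom.inr (Multiplicative ℤ) (Dih (r b))))
    have hf : ∀ δ, f δ = (Ψ (1, δ)).2 := fun δ => rfl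
    let l : Dih (r b) →* Multiplicative ℤ :=
      (MonoidHom.fst (Multiplicative ℤ) (Dih (r b))).comp
        (Ψ.comp (MonoidHom.inr (Multiplicative ℤ) (Dih (r b))))
    have hl : ∀ δ, (Ψ (1, δ)).1 = 1 := fun δ => d_hom_triv l (by
      show (Ψ (1, dw (r b))).1 = 1
      rw [h1]) δ
    have hsplit : ∀ a δ, Ψ (a, δ) = (a, f δ) := by
      intro a δ
      have : ((a, δ) : EG r b) = (a, 1) * (1, δ) := by simp
      rw [this, map_mul, h2, Prod.ext_iff]
      refine ⟨?_, ?_⟩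
      · rw [Prod.fst_mul, hl, mul_one]
      · rw [Prod.snd_mul, one_mul, hf]
    have hsurj : Surjective f := by
      intro δ
      have h3 : ψ.symm (D.eo b 1 δ) ∈ side X Y b := by
        rw [hψ, ψ.apply_symm_apply]; exact D.eo_side
      obtain ⟨a, δ', h4⟩ := D.side_eo h3
      refine ⟨δ', ?_⟩
      have h5 : Ψ (a, δ') = (1, δ) := hΨe _ _ _ _ (by rw [← h4, ψ.apply_symm_apply])
      rw [hsplit] at h5
      exact (Prod.mk.inj h5).2
    obtain ⟨k, hk⟩ := d_surj (hr b) f hsurj (by rw [hf, h1])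
    refine ⟨k, fun a δ => ?_⟩
    have := hΨ (a, δ)
    rw [hsplit, hk] at this
    exact this.symm
  choose k hk using key
  refine ⟨D.base (fun b => Multiplicative.ofAdd (k b)), D.hom_ext ?_⟩
  intro b a δ
  rw [hk, MulAut.conj_apply, D.base_eo b, eo_inv, eo_mul, eo_mul, toAdd_ofAdd]
  congr 1
  rw [mul_comm, ← mul_assoc, inv_mul_cancel, one_mul]

end ExData

/-- two steps of a finiteness argument -/
theorem fin_quot {Γ F : Type*} [Group Γ] [Finite F] (N : Subgroup Γ) (K : Set Γ) (f : Γ → Bool)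
    (hf : ∀ a b, f a = f b → a⁻¹ * b ∈ K) (g : Γ → F)
    (hg : ∀ a ∈ K, ∀ b ∈ K, g a = g b → a⁻¹ * b ∈ N) : Finite (Γ ⧸ N) := by
  classical
  let ρ : Bool → Γ := fun t => if h : ∃ a, f a = t then h.choose else 1
  have hρ : ∀ a, f (ρ (f a)) = f a := by
    intro a
    have h : ∃ c, f c = f a := ⟨a, rfl⟩
    simp only [ρ, dif_pos h]
    exact h.choose_spec
  have hK : ∀ a, (ρ (f a))⁻¹ * a ∈ K := fun a => hf _ _ (hρ a)
  refine Finite.of_injective (fun q : Γ ⧸ N => (f q.out, g ((ρ (f q.out))⁻¹ * q.out))) ?_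
  intro q q' h
  obtain ⟨h1, h2⟩ := Prod.mk.inj h
  have h3 := hK q.out
  have h4 := hK q'.out
  rw [← h1] at h4 h2
  have h5 := hg _ h3 _ h4 h2
  have h6 : ((ρ (f q.out))⁻¹ * q.out)⁻¹ * ((ρ (f q.out))⁻¹ * q'.out) = (q.out)⁻¹ * q'.out := by
    group
  rw [h6] at h5
  have := QuotientGroup.eq.2 h5
  rwa [QuotientGroup.out_eq', QuotientGroup.out_eq'] at this

include D in
/-- the outer automorphism group of an exceptional group is finite -/
theorem ExData.finite_out (hr : ∀ b, 1 ≤ r b) :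
    Finite (MulAut P ⧸ (MulAut.conj : P →* MulAut P).range) := by
  classical
  have hR := D.rigid hr
  -- the two images
  choose c t hct using fun θ : MulAut P => hR.image_eq θ true
  choose c' s hcs using fun θ : MulAut P => hR.image_eq θ false
  have hcc : ∀ θ, c' θ = !(c θ) := by
    intro θ
    by_contra h
    have h1 : c' θ = c θ := by
      cases h2 : c' θ <;> cases h3 : c θ <;> simp_all
    refine hR.image_ne θ (c' := c θ) (t := t θ) (s := s θ) (hct θ) ?_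
    have := hcs θ
    rwa [h1] at this
  let K : Set (MulAut P) := {θ | ∃ q, ∀ x, (x ∈ X ↔ q⁻¹ * θ x * q ∈ X) ∧
    (x ∈ Y ↔ q⁻¹ * θ x * q ∈ Y)}
  let q : MulAut P → P := fun θ => if h : θ ∈ K then h.choose else 1
  have hq : ∀ θ ∈ K, ∀ x, (x ∈ X ↔ (q θ)⁻¹ * θ x * (q θ) ∈ X) ∧
      (x ∈ Y ↔ (q θ)⁻¹ * θ x * (q θ) ∈ Y) := by
    intro θ hθ
    simp only [q, dif_pos hθ]
    exact hθ.choose_spec
  refine fin_quot (F := Bool → Bool) _ K c ?_
    (fun θ b => decide ((q θ)⁻¹ * θ (D.W b) * q θ = D.W b)) ?_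
  · intro θ η h
    -- conjugates of images
    have hgen : ∀ {Z : Subgroup P} {d : Bool} {u v : P},
        (∀ x, x ∈ Z ↔ u⁻¹ * θ x * u ∈ side X Y d) → (∀ x, x ∈ Z ↔ v⁻¹ * η x * v ∈ side X Y d) →
        ∀ x, x ∈ Z ↔ ((θ⁻¹ (u * v⁻¹))⁻¹)⁻¹ * (θ⁻¹ * η) x * (θ⁻¹ (u * v⁻¹))⁻¹ ∈ Z := by
      intro Z d u v hu hv x
      rw [hv x, hu]
      have : θ (((θ⁻¹ (u * v⁻¹))⁻¹)⁻¹ * (θ⁻¹ * η) x * (θ⁻¹ (u * v⁻¹))⁻¹) =
          (u * v⁻¹) * η x * (u * v⁻¹)⁻¹ := by
        rw [inv_inv, map_mul, map_mul, map_inv, MulAut.apply_inv_self, MulAut.mul_apply,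
          MulAut.apply_inv_self]
      rw [this]
      have e : u⁻¹ * (u * v⁻¹ * η x * (u * v⁻¹)⁻¹) * u = v⁻¹ * η x * v := by group
      rw [e]
    have h1 := hct η
    rw [← h] at h1
    have h2 := hgen (hct θ) h1
    have h3 := hcs η
    rw [hcc, ← h] at h3
    have h4 := hcs θ
    rw [hcc] at h4
    have h5 := hgen h4 h3
    exact hR.same_conj _ h2 h5
  · intro θ hθ η hη h
    have h1 := hq θ hθ
    have h2 := hq η hη
    obtain ⟨ψ₁, hψ₁⟩ : ∃ ψ₁ : MulAut P, ψ₁ = MulAut.conj (q θ)⁻¹ * θ := ⟨_, rfl⟩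
    obtain ⟨ψ₂, hψ₂⟩ : ∃ ψ₂ : MulAut P, ψ₂ = MulAut.conj (q η)⁻¹ * η := ⟨_, rfl⟩
    have e1 : ∀ x, ψ₁ x = (q θ)⁻¹ * θ x * (q θ) := by
      intro x; simp [hψ₁]
    have e2 : ∀ x, ψ₂ x = (q η)⁻¹ * η x * (q η) := by
      intro x; simp [hψ₂]
    have i1 : ∀ x, ψ₁⁻¹ (ψ₁ x) = x := MulAut.inv_apply_self P ψ₁
    have i2 : ∀ x, ψ₁ (ψ₁⁻¹ x) = x := MulAut.apply_inv_self P ψ₁
    have k1 : ∀ b x, x ∈ side X Y b ↔ ψ₁ x ∈ side X Y b := by
      intro b x
      rw [e1]
      cases b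
      · exact (h1 x).2
      · exact (h1 x).1
    have k2 : ∀ b x, x ∈ side X Y b ↔ ψ₂ x ∈ side X Y b := by
      intro b x
      rw [e2]
      cases b
      · exact (h2 x).2
      · exact (h2 x).1
    have k3 : ∀ b, (ψ₁⁻¹ * ψ₂) (D.W b) = D.W b := by
      intro b
      have hb := congrFun h b
      simp only [← e1, ← e2] at hb
      rw [MulAut.mul_apply]
      by_cases hw : ψ₁ (D.W b) = D.W b
      · have hw2 : ψ₂ (D.W b) = D.W b := by
          simpa [hw] using hb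
        rw [hw2]
        conv_lhs => rw [← hw]
        exact i1 _
      · have hw2 : ¬ ψ₂ (D.W b) = D.W b := by
          simpa [hw] using hb
        have h3 := (D.W_sign hr ψ₁ k1 b).resolve_left hw
        have h4 := (D.W_sign hr ψ₂ k2 b).resolve_left hw2
        rw [h4, ← h3]
        exact i1 _
    obtain ⟨g, hg⟩ := D.inner hr (ψ₁⁻¹ * ψ₂) (by
      intro b x
      rw [k1 b ((ψ₁⁻¹ * ψ₂) x), MulAut.mul_apply, i2]
      exact k2 b x) k3
    refine ⟨(ψ₁⁻¹ ((q θ)⁻¹ * q η)) * g, ?_⟩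
    have h5 : ψ₂ = ψ₁ * MulAut.conj g := by rw [← hg]; group
    have h6 : θ = MulAut.conj (q θ) * ψ₁ := by
      ext x; rw [MulAut.mul_apply, e1, MulAut.conj_apply]; group
    have h7 : η = MulAut.conj (q η) * ψ₂ := by
      ext x; rw [MulAut.mul_apply, e2, MulAut.conj_apply]; group
    have h8 : MulAut.conj (ψ₁⁻¹ ((q θ)⁻¹ * q η)) =
        ψ₁⁻¹ * MulAut.conj ((q θ)⁻¹ * q η) * ψ₁ := by
      ext x
      rw [MulAut.conj_apply, MulAut.mul_apply, MulAut.mul_apply, MulAut.conj_apply,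
        map_mul ψ₁⁻¹ (_ * _), map_mul ψ₁⁻¹ _ (ψ₁ x), i1, map_inv]
    rw [map_mul, h8]
    conv_rhs => rw [h6, h7, h5]
    rw [map_mul, map_inv]
    group

end Pool.MP_a3a325_al.Am
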