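import Pool.Agent.Lib_helper76.AM.ExGrp
import Pool.Agent.Lib_helper76.AO.Basic

set_option autoImplicit false

/-!
# The exceptional Artin groups have finite outer automorphism groups
-/

namespace Pool.MP_a3a325_al.Am

open Monoid Function Pool.MP_a3a325_al

section dih

/-- the second standard generator -/
def dc (s : ℕ) : Dih s := (dx s)⁻¹ * dy s ^ (s + 1)

theorem dw_dc (s : ℕ) : dw s * dc s = dy s := by
  rw [dw, dc]
  have : dy s ^ (-(s : ℤ)) * dx s * ((dx s)⁻¹ * dy s ^ (s + 1)) =
      dy s ^ (-(s : ℤ)) * dy s ^ (s + 1) := by group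
  rw [this, ← zpow_natCast, ← zpow_add]
  have e : (-(s : ℤ) + ((s + 1 : ℕ) : ℤ)) = 1 := by push_cast; ring
  rw [e, zpow_one]

/-- moving the parenthesis -/
theorem alt_odd' {G : Type*} [Monoid G] (x y : G) (k : ℕ) :
    alt x y (2 * k + 1) = (x * y) ^ k * x := by
  rw [alt_odd]
  induction k with
  | zero => simp
  | succ k ih => rw [pow_succ' (y * x), pow_succ' (x * y), mul_assoc (x * y), ← ih]; simp [mul_assoc]

theorem alt_dw_dc (s : ℕ) : alt (dw s) (dc s) (2 * s + 1) = dx s := by
  rw [alt_odd', dw_dc, dw, ← mul_assoc, ← zpow_natCast, ← zpow_add, add_neg_cancel, zpow_zero,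
    one_mul]

theorem alt_dc_dw (s : ℕ) : alt (dc s) (dw s) (2 * s + 1) = dx s := by
  rw [alt_odd, dw_dc, dc, mul_assoc, ← pow_add]
  have e : s + 1 + s = 2 * s + 1 := by ring
  rw [e, dy_pow, ← dx_sq, pow_two, inv_mul_cancel_left]

variable {G : Type*} [Group G] {w c : G} {s : ℕ}

theorem alt_sq (h : alt w c (2 * s + 1) = alt c w (2 * s + 1)) :
    alt w c (2 * s + 1) ^ 2 = (w * c) ^ (2 * s + 1) := by
  rw [pow_two]
  conv_lhs =>
    rhs
    rw [h]
  rw [alt_odd', alt_odd]
  have e : (w * c) ^ s * w * (c * (w * c) ^ s) = (w * c) ^ s * (w * c) * (w * c) ^ s := by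
    simp only [mul_assoc]
  rw [e, ← pow_succ, ← pow_add]
  congr 1
  ring

/-- the homomorphism to a group with a braid relation -/
def dhom (h : alt w c (2 * s + 1) = alt c w (2 * s + 1)) : Dih s →* G :=
  dlift s (alt w c (2 * s + 1)) (w * c) (alt_sq h)

theorem dhom_dx (h : alt w c (2 * s + 1) = alt c w (2 * s + 1)) :
    dhom h (dx s) = alt w c (2 * s + 1) := dlift_dx _ _ _ _

theorem dhom_dy (h : alt w c (2 * s + 1) = alt c w (2 * s + 1)) :
    dhom h (dy s) = w * c := dlift_dy _ _ _ _

theorem dhom_dw (h : alt w c (2 * s + 1) = alt c w (2 * s + 1)) : dhom h (dw s) = w := by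
  rw [dw, map_mul, map_zpow, dhom_dx, dhom_dy, alt_odd', zpow_neg, zpow_natCast]
  group

theorem dhom_dc (h : alt w c (2 * s + 1) = alt c w (2 * s + 1)) : dhom h (dc s) = c := by
  have h1 := congrArg (dhom h) (dw_dc s)
  rw [map_mul, dhom_dw, dhom_dy] at h1
  exact mul_left_cancel h1

end dih

/-- transfer of the amalgam structure along a retraction -/
theorem retract {G : Bool → Type*} [∀ b, Group (G b)] {H : Type*} [Group H]
    {φ : ∀ b, H →* G b} {A Q : Type*} [Group A] [Group Q] (q : ∀ b, G b →* Q)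
    (hq : ∀ b, Injective (q b))
    (hinf : ∀ b g, q b g ∈ (q true).range ⊓ (q false).range ↔ g ∈ (φ b).range)
    (hQ : Amalg (q true).range (q false).range) (o : ∀ b, G b →* A)
    (hc : ∀ b h, o b (φ b h) = o true (φ true h))
    (hgen : (o true).range ⊔ (o false).range = ⊤) (f : A →* Q) (hf : ∀ b g, f (o b g) = q b g) :
    (∀ b, Injective (o b)) ∧
    (∀ b g, o b g ∈ (o true).range ⊓ (o false).range ↔ g ∈ (φ b).range) ∧
    Amalg (o true).range (o false).range := by
  have hside : ∀ {x : A} {b : Bool}, x ∈ side (o true).range (o false).range b →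
      ∃ g, x = o b g := by
    intro x b hx
    cases b
    · obtain ⟨g, rfl⟩ := hx; exact ⟨g, rfl⟩
    · obtain ⟨g, rfl⟩ := hx; exact ⟨g, rfl⟩
  have hfside : ∀ {x : A} {b : Bool}, x ∈ side (o true).range (o false).range b →
      f x ∈ side (q true).range (q false).range b := by
    intro x b hx
    obtain ⟨g, rfl⟩ := hside hx
    rw [hf]
    cases b
    · exact ⟨g, rfl⟩
    · exact ⟨g, rfl⟩
  have hinfo : ∀ b g, o b g ∈ (o true).range ⊓ (o false).range ↔ g ∈ (φ b).range := by
    intro b g
    constructor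
    · intro h
      rw [← hinf, ← hf]
      exact ⟨hfside (b := true) h.1, hfside (b := false) h.2⟩
    · rintro ⟨h, rfl⟩
      refine ⟨?_, ?_⟩
      · rw [hc]; exact ⟨_, rfl⟩
      · rw [hc, ← hc false]; exact ⟨_, rfl⟩
  refine ⟨fun b g g' h => hq b (by rw [← hf, ← hf, h]), hinfo, hgen, ?_⟩
  intro b l hl hne h1
  have hred : ∀ (l : List A) (b : Bool), Red (o true).range (o false).range b l →
      Red (q true).range (q false).range b (l.map f) := by
    intro l
    induction l with
    | nil => intro b _; exact red_nil _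
    | cons x l ih =>
      intro b hl
      rw [List.map_cons, red_cons]
      refine ⟨?_, ih _ hl.2⟩
      refine lt_of_notMem (hfside hl.1.1) ?_
      obtain ⟨g, rfl⟩ := hside hl.1.1
      rw [hf, hinf, ← hinfo]
      exact hl.1.notMem
  refine hQ.red b (l.map f) (hred l b hl) (by simpa using hne) ?_
  rw [← map_list_prod, h1, map_one]

variable {S : Type*}

/-- the exceptional matrices -/
structure ExM (M : CoxeterMatrix S) (r : Bool → ℕ) (u k : Bool → S) : Prop where
  uu : ∀ b, M (u b) (u (!b)) = 2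
  ku : ∀ b, M (k b) (u (!b)) = 2
  kk : ∀ b, M (k b) (k (!b)) = 0
  lab : ∀ b, M (k b) (u b) = 2 * r b + 1
  cover : ∀ s, ∃ b, s = u b ∨ s = k b
  hr : ∀ b, 1 ≤ r b

variable {M : CoxeterMatrix S} {r : Bool → ℕ} {u k : Bool → S} (E : ExM M r u k)

namespace ExM

theorem sym (s t : S) : M s t = M t s := M.isSymm.apply t s

include E

theorem u_ne (b : Bool) : u b ≠ u (!b) := by
  intro h
  have h1 := E.uu b
  rw [← h, M.diagonal] at h1
  omega

theorem ku_ne (b b' : Bool) : k b ≠ u b' := by
  intro h
  rcases Bool.eq_or_eq_not b' b with rfl | rfl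
  · have h1 := E.lab b'
    rw [← h, M.diagonal] at h1
    have := E.hr b'
    omega
  · have h1 := E.ku b
    rw [← h, M.diagonal] at h1
    omega

theorem k_ne (b : Bool) : k b ≠ k (!b) := by
  intro h
  have h1 := E.kk b
  rw [← h, M.diagonal] at h1
  omega

theorem rel_gen (b : Bool) : alt (gen M (u b)) (gen M (k b)) (2 * r b + 1) =
    alt (gen M (k b)) (gen M (u b)) (2 * r b + 1) := by
  have := gen_rel M (k b) (u b)
  rw [E.lab] at this
  exact this.symm

theorem comm_uu (b : Bool) : Commute (gen M (u b)) (gen M (u (!b))) := by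
  have := gen_rel M (u b) (u (!b))
  rw [E.uu, alt_two, alt_two] at this
  exact this

theorem comm_ku (b : Bool) : Commute (gen M (k b)) (gen M (u (!b))) := by
  have := gen_rel M (k b) (u (!b))
  rw [E.ku, alt_two, alt_two] at this
  exact this

omit E in
theorem commute_alt {G : Type*} [Group G] {v w c : G} (h1 : Commute v w) (h2 : Commute v c)
    (n : ℕ) : Commute v (alt w c n) := by
  induction n generalizing w c with
  | zero => exact Commute.one_right v
  | succ n ih => exact h1.mul_right (ih h2 h1)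

theorem comm_dhom (b : Bool) (δ : Dih (r b)) :
    Commute (gen M (u (!b))) (dhom (E.rel_gen b) δ) := by
  have h1 : Commute (gen M (u (!b))) (gen M (u b)) := (E.comm_uu b).symm
  have h2 : Commute (gen M (u (!b))) (gen M (k b)) := (E.comm_ku b).symm
  have h3 : (MulAut.conj (gen M (u (!b)))).toMonoidHom.comp (dhom (E.rel_gen b)) =
      dhom (E.rel_gen b) := by
    apply d_hom_ext
    · simp only [MonoidHom.comp_apply, MulEquiv.coe_toMonoidHom, MulAut.conj_apply, dhom_dx]
      rw [(commute_alt h1 h2 _).eq, mul_assoc, mul_inv_cancel, mul_one]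
    · simp only [MonoidHom.comp_apply, MulEquiv.coe_toMonoidHom, MulAut.conj_apply, dhom_dy]
      rw [(h1.mul_right h2).eq, mul_assoc, mul_inv_cancel, mul_one]
  have h4 := DFunLike.congr_fun h3 δ
  simp only [MonoidHom.comp_apply, MulEquiv.coe_toMonoidHom, MulAut.conj_apply] at h4
  show _ * _ = _ * _
  conv_rhs => rw [← h4]
  group

/-- the factors in the Artin group -/
def o (b : Bool) : EG r b →* ArtinGroup M :=
  MonoidHom.noncommCoprod (zpowersHom (ArtinGroup M) (gen M (u (!b)))) (dhom (E.rel_gen b))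
    (fun m n => by
      rw [zpowersHom_apply]
      exact (E.comm_dhom b n).zpow_left _)

theorem o_apply (b : Bool) (a : Multiplicative ℤ) (δ : Dih (r b)) :
    E.o b (a, δ) = gen M (u (!b)) ^ (Multiplicative.toAdd a) * dhom (E.rel_gen b) δ := by
  simp [o, MonoidHom.noncommCoprod_apply]

theorem o_compat' (b : Bool) (e : EH) : E.o b (emap r b e) =
    gen M (u (!b)) ^ (Multiplicative.toAdd (e (!b))) *
      gen M (u b) ^ (Multiplicative.toAdd (e b)) := by
  rw [emap_apply, o_apply, map_zpow, dhom_dw]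

theorem o_compat (b : Bool) (e : EH) : E.o b (emap r b e) = E.o true (emap r true e) := by
  cases b
  · rw [E.o_compat', E.o_compat']
    exact (((E.comm_uu true).zpow_left _).zpow_right _).eq
  · rfl

theorem o_gen : (E.o true).range ⊔ (E.o false).range = ⊤ := by
  have hs : ∀ b, (E.o b).range ≤ (E.o true).range ⊔ (E.o false).range := by
    intro b
    cases b
    · exact le_sup_right
    · exact le_sup_left
  rw [eq_top_iff, ← closure_gen M, Subgroup.closure_le]
  rintro _ ⟨s, rfl⟩
  obtain ⟨b, rfl | rfl⟩ := E.cover s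
  · refine hs b ⟨(1, dw (r b)), ?_⟩
    rw [o_apply, dhom_dw]; simp
  · refine hs b ⟨(1, dc (r b)), ?_⟩
    rw [o_apply, dhom_dc]; simp

variable {Q : Type*} [Group Q] {X Y : Subgroup Q} (D : ExData r X Y)

open Classical in
/-- the images of the generators -/
noncomputable def vm (_ : ExM M r u k) (D : ExData r X Y) (s : S) : Q :=
  if s = u true then D.W true else if s = u false then D.W false else
    if s = k true then D.eo true 1 (dc (r true)) else D.eo false 1 (dc (r false))

theorem vm_u (b : Bool) : vm E D (u b) = D.W b := by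
  cases b
  · rw [vm, if_neg (show u false ≠ u true from E.u_ne false), if_pos rfl]
  · rw [vm, if_pos rfl]

theorem vm_k (b : Bool) : vm E D (k b) = D.eo b 1 (dc (r b)) := by
  cases b
  · rw [vm, if_neg (E.ku_ne _ _), if_neg (E.ku_ne _ _),
      if_neg (show k false ≠ k true from E.k_ne false)]
  · rw [vm, if_neg (E.ku_ne _ _), if_neg (E.ku_ne _ _), if_pos rfl]

omit E in
theorem W_comm (b : Bool) : Commute (D.W b) (D.W (!b)) :=
  (D.W_central b _ (mem_side_of_mem_E (D.W_mem b) b)).symm

omit E in
theorem k_comm (b : Bool) : Commute (D.eo b 1 (dc (r b))) (D.W (!b)) :=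
  (D.W_central b _ D.eo_side).symm

omit E in
theorem eo_one (b : Bool) (x y : Dih (r b)) (n : ℕ) :
    alt (D.eo b 1 x) (D.eo b 1 y) n = D.eo b 1 (alt x y n) := by
  have h := map_alt ((D.o b).comp (MonoidHom.inr (Multiplicative ℤ) (Dih (r b)))) x y n
  exact h.symm

omit E in
theorem k_alt (b : Bool) : alt (D.eo b 1 (dc (r b))) (D.W b) (2 * r b + 1) =
    alt (D.W b) (D.eo b 1 (dc (r b))) (2 * r b + 1) := by
  rw [D.W_eo_same, eo_one, eo_one, alt_dw_dc, alt_dc_dw]

theorem vm_rel (s t : S) : alt (vm E D s) (vm E D t) (M s t) =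
    alt (vm E D t) (vm E D s) (M s t) := by
  obtain ⟨b, rfl | rfl⟩ := E.cover s <;> obtain ⟨b', rfl | rfl⟩ := E.cover t
  · rw [vm_u, vm_u]
    rcases Bool.eq_or_eq_not b' b with rfl | rfl
    · rfl
    · rw [E.uu, alt_two, alt_two]
      exact (W_comm D b).eq
  · rw [vm_u, vm_k]
    rcases Bool.eq_or_eq_not b' b with rfl | rfl
    · rw [sym, E.lab]
      exact (k_alt D b').symm
    · have h := k_comm D (!b)
      rw [Bool.not_not] at h
      have h2 := E.ku (!b)
      rw [Bool.not_not] at h2
      rw [sym, h2, alt_two, alt_two]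
      exact h.eq.symm
  · rw [vm_k, vm_u]
    rcases Bool.eq_or_eq_not b' b with rfl | rfl
    · rw [E.lab]
      exact k_alt D b'
    · rw [E.ku, alt_two, alt_two]
      exact (k_comm D b).eq
  · rw [vm_k, vm_k]
    rcases Bool.eq_or_eq_not b' b with rfl | rfl
    · rfl
    · rw [E.kk, alt_zero, alt_zero]

/-- the homomorphism from the Artin group -/
noncomputable def toQ : ArtinGroup M →* Q := lift (vm E D) (vm_rel E D)

theorem toQ_u (b : Bool) : toQ E D (gen M (u b)) = D.W b := by
  rw [toQ, lift_gen, vm_u]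

theorem toQ_k (b : Bool) : toQ E D (gen M (k b)) = D.eo b 1 (dc (r b)) := by
  rw [toQ, lift_gen, vm_k]

theorem toQ_dhom (b : Bool) (δ : Dih (r b)) : toQ E D (dhom (E.rel_gen b) δ) = D.eo b 1 δ := by
  have h : (toQ E D).comp (dhom (E.rel_gen b)) =
      (D.o b).comp (MonoidHom.inr (Multiplicative ℤ) (Dih (r b))) := by
    apply d_hom_ext
    · rw [MonoidHom.comp_apply, dhom_dx, map_alt, toQ_u, toQ_k, D.W_eo_same, eo_one, alt_dw_dc]
      rfl
    · rw [MonoidHom.comp_apply, dhom_dy, map_mul, toQ_u, toQ_k, D.W_eo_same, D.eo_mul, one_mul,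
        dw_dc]
      rfl
  exact DFunLike.congr_fun h δ

theorem toQ_o (b : Bool) (g : EG r b) : toQ E D (E.o b g) = D.o b g := by
  obtain ⟨a, δ⟩ := g
  rw [o_apply, map_mul, map_zpow, toQ_u, toQ_dhom, D.W_eo_not, D.eo_zpow, D.eo_mul, one_zpow,
    one_mul, ← int_pow a, mul_one]
  rfl

include D in
/-- the structure on the Artin group -/
theorem data : Nonempty (ExData r (E.o true).range (E.o false).range) := by
  have hside : ∀ b, (D.o b).range = side X Y b := D.range
  have ht : (D.o true).range = X := D.range true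
  have hf : (D.o false).range = Y := D.range false
  obtain ⟨h1, h2, h3⟩ := retract (φ := emap r) D.o D.inj (by rw [ht, hf]; exact D.inf)
    (by rw [ht, hf]; exact D.amalg) E.o E.o_compat E.o_gen (toQ E D) (toQ_o E D)
  exact ⟨⟨E.o, h1, fun b => by cases b <;> rfl, E.o_compat, h2, h3⟩⟩

end ExM

/-- the structure on the pushout -/
noncomputable def pushData (r : Bool → ℕ) : ExData r (PX (emap r)) (PY (emap r)) where
  o b := PushoutI.of (φ := emap r) b
  inj := PushoutI.of_injective (emap_inj r)
  range b := (side_push b).symm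
  compat b e := by
    rw [PushoutI.of_apply_eq_base, PushoutI.of_apply_eq_base]
  inf b g := of_mem_inf (emap_inj r)
  amalg := push_amalg (emap_inj r)

/-- the exceptional Artin groups have finite outer automorphism groups -/
theorem ExM.finiteOut (E : ExM M r u k) : FiniteOut (ArtinGroup M) := by
  obtain ⟨D⟩ := E.data (pushData r)
  exact D.finite_out E.hr

end Pool.MP_a3a325_al.Am
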