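import Pool.Agent.Lib_helper76.AM.ExIso

set_option autoImplicit false

/-!
# The exceptional matrices of rank four
-/

namespace Pool.MP_a3a325_al.Am

open Pool.MP_a3a325_al

/-- finiteness of the outer automorphism group for the exceptional matrices -/
theorem exc_finiteOut {S : Type*} (M : CoxeterMatrix S) {v w c d : S} (hcw : c ≠ w) (hdv : d ≠ v)
    (hcov : ∀ s, s = v ∨ s = w ∨ s = c ∨ s = d) (hvw : M v w = 2) (hcv : M c v = 2)
    (hdw : M d w = 2) (hoc : Odd (M c w)) (hod : Odd (M d v)) (hcd : M c d = 0) :
    FiniteOut (ArtinGroup M) := by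
  have hsym : ∀ s t, M s t = M t s := fun s t => M.isSymm.apply t s
  obtain ⟨i, hi⟩ := hoc
  obtain ⟨j, hj⟩ := hod
  have hi1 : 1 ≤ i := by
    have := M.off_diagonal c w hcw
    omega
  have hj1 : 1 ≤ j := by
    have := M.off_diagonal d v hdv
    omega
  have E : ExM M (fun b => if b then i else j) (fun b => if b then w else v)
      (fun b => if b then c else d) := by
    constructor
    · intro b
      cases b
      · exact hvw
      · exact (hsym _ _).trans hvw
    · intro b
      cases b
      · exact hdw
      · exact hcv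
    · intro b
      cases b
      · exact (hsym _ _).trans hcd
      · exact hcd
    · intro b
      cases b
      · exact hj
      · exact hi
    · intro s
      rcases hcov s with h | h | h | h
      · exact ⟨false, Or.inl h⟩
      · exact ⟨true, Or.inl h⟩
      · exact ⟨true, Or.inr h⟩
      · exact ⟨false, Or.inr h⟩
    · intro b
      cases b
      · exact hj1
      · exact hi1
  exact E.finiteOut

/-- the two remaining vertices are not joined -/
theorem exc_not_preconnected {S : Type*} (M : CoxeterMatrix S) {v w c d : S} (hcw : c ≠ w)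
    (hdv : d ≠ v) (hcov : ∀ s, s = v ∨ s = w ∨ s = c ∨ s = d) (hcv : M c v = 2)
    (hdw : M d w = 2) (hcd : M c d = 0) :
    ¬ ((artinGraph M).induce ({v, w} : Set S)ᶜ).Preconnected := by
  intro h
  have hcv' : c ≠ v := by
    rintro rfl
    rw [M.diagonal] at hcv
    omega
  have hdw' : d ≠ w := by
    rintro rfl
    rw [M.diagonal] at hdw
    omega
  have hcd' : c ≠ d := by
    rintro rfl
    rw [M.diagonal] at hcd
    omega
  have hc : c ∈ ({v, w} : Set S)ᶜ := by simp [hcv', hcw]
  have hd : d ∈ ({v, w} : Set S)ᶜ := by simp [hdv, hdw']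
  obtain ⟨p⟩ := h ⟨c, hc⟩ ⟨d, hd⟩
  cases p with
  | nil => exact hcd' rfl
  | @cons _ x _ hadj p =>
    obtain ⟨x, hx⟩ := x
    have h1 : c ≠ x ∧ M c x ≠ 0 := hadj
    simp only [Set.mem_compl_iff, Set.mem_insert_iff, Set.mem_singleton_iff, not_or] at hx
    rcases hcov x with h2 | h2 | h2 | h2
    · exact hx.1 h2
    · exact hx.2 h2
    · exact h1.1 h2.symm
    · exact h1.2 (by rw [h2]; exact hcd)

end Pool.MP_a3a325_al.Am
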