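import Pool.Agent.Lib_helper76.AM.Rigid

set_option autoImplicit false

/-!
# The pushout of two groups over a common subgroup is an amalgamated product
-/

namespace Pool.MP_a3a325_al.Am

open Monoid Function

variable {G : Bool → Type*} [∀ b, Group (G b)] {H : Type*} [Group H] {φ : ∀ b, H →* G b}

/-- the factor with index `true` -/
abbrev PX (φ : ∀ b, H →* G b) : Subgroup (PushoutI φ) := (PushoutI.of (φ := φ) true).range

/-- the factor with index `false` -/
abbrev PY (φ : ∀ b, H →* G b) : Subgroup (PushoutI φ) := (PushoutI.of (φ := φ) false).range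

theorem side_push (b : Bool) : side (PX φ) (PY φ) b = (PushoutI.of (φ := φ) b).range := by
  cases b <;> rfl

theorem push_inf (hφ : ∀ b, Injective (φ b)) : PX φ ⊓ PY φ = (PushoutI.base φ).range :=
  PushoutI.inf_of_range_eq_base_range hφ (by decide)

theorem mem_side_push {b : Bool} (g : G b) : PushoutI.of (φ := φ) b g ∈ side (PX φ) (PY φ) b := by
  rw [side_push]; exact ⟨g, rfl⟩

theorem base_mem (hφ : ∀ b, Injective (φ b)) (h : H) : PushoutI.base φ h ∈ PX φ ⊓ PY φ := by
  rw [push_inf hφ]; exact ⟨h, rfl⟩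

theorem of_mem_inf (hφ : ∀ b, Injective (φ b)) {b : Bool} {g : G b} :
    PushoutI.of (φ := φ) b g ∈ PX φ ⊓ PY φ ↔ g ∈ (φ b).range := by
  rw [push_inf hφ]
  constructor
  · rintro ⟨h, hh⟩
    rw [← PushoutI.of_apply_eq_base φ b h] at hh
    exact ⟨h, PushoutI.of_injective hφ b hh⟩
  · rintro ⟨h, rfl⟩
    exact ⟨h, (PushoutI.of_apply_eq_base φ b h).symm⟩

theorem push_lt (hφ : ∀ b, Injective (φ b)) {b : Bool} {g : G b} (hg : g ∉ (φ b).range) :
    Lt (PX φ) (PY φ) b (PushoutI.of (φ := φ) b g) :=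
  lt_of_notMem (mem_side_push g) fun h => hg ((of_mem_inf hφ).1 h)

theorem push_word (hφ : ∀ b, Injective (φ b)) : ∀ (l : List (PushoutI φ)) (b : Bool),
    Red (PX φ) (PY φ) b l → ∃ w : CoprodI.Word G, PushoutI.Reduced φ w ∧
      PushoutI.ofCoprodI w.prod = l.prod ∧ (l ≠ [] → w.fstIdx = some b) ∧ (l = [] → w = .empty) := by
  intro l
  induction l with
  | nil =>
    intro b _
    refine ⟨.empty, ?_, by simp, fun h => absurd rfl h, fun _ => rfl⟩
    intro g hg
    simp [CoprodI.Word.empty] at hg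
  | cons g l ih =>
    intro b hl
    obtain ⟨w, h1, h2, h3, h4⟩ := ih (!b) hl.2
    have hgm := hl.1.1
    rw [side_push] at hgm
    obtain ⟨a, rfl⟩ := hgm
    have ha : a ∉ (φ b).range := fun h => hl.1.notMem ((of_mem_inf hφ).2 h)
    have hne : w.fstIdx ≠ some b := by
      by_cases hl0 : l = []
      · rw [h4 hl0]; simp [CoprodI.Word.fstIdx, CoprodI.Word.empty]
      · rw [h3 hl0]; simp
    have ha1 : a ≠ 1 := by
      rintro rfl; exact ha (one_mem _)
    refine ⟨CoprodI.Word.cons a w hne ha1, ?_, ?_, fun _ => by simp, fun h => by simp at h⟩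
    · intro x hx
      simp only [CoprodI.Word.cons, List.mem_cons] at hx
      rcases hx with rfl | hx
      · exact ha
      · exact h1 x hx
    · rw [CoprodI.Word.prod_cons, map_mul, h2, PushoutI.ofCoprodI_of, List.prod_cons]

theorem push_gen (hφ : ∀ b, Injective (φ b)) : PX φ ⊔ PY φ = ⊤ := by
  rw [eq_top_iff]
  intro g _
  induction g using PushoutI.induction_on with
  | of i g =>
    cases i
    · exact (le_sup_right : PY φ ≤ _) ⟨g, rfl⟩
    · exact (le_sup_left : PX φ ≤ _) ⟨g, rfl⟩
  | base h => exact (le_sup_left : PX φ ≤ _) (base_mem hφ h).1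
  | mul x y hx hy => exact mul_mem (hx trivial) (hy trivial)

theorem push_amalg (hφ : ∀ b, Injective (φ b)) : Amalg (PX φ) (PY φ) where
  gen := push_gen hφ
  red := by
    intro b l hl hne h1
    obtain ⟨w, k1, k2, k3, -⟩ := push_word hφ l b hl
    have : w = .empty := k1.eq_empty_of_mem_range hφ (by rw [k2, h1]; exact one_mem _)
    have h3 := k3 hne
    rw [this] at h3
    simp [CoprodI.Word.fstIdx, CoprodI.Word.empty] at h3

end Pool.MP_a3a325_al.Am
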