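import Pool.Agent.Lib_helper76.AM.Shift

set_option autoImplicit false

/-!
# Automorphisms of rigid amalgamated products
-/

namespace Pool.MP_a3a325_al.Am

variable {G : Type*} [Group G] {X Y : Subgroup G}

namespace Amalg

variable (h : Amalg X Y)

include h

/-- double cosets -/
theorem dcoset (t : G) : (∃ x ∈ X, ∃ y ∈ Y, t = x * y) ∨
    ∃ x ∈ X, ∃ y ∈ Y, ∃ l : List G, Red X Y false l ∧ l ≠ [] ∧ Even l.length ∧
      t = x * l.prod * y := by
  obtain ⟨l, b, e, h1, h2, rfl⟩ := h.nf t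
  obtain ⟨x, hx, l1, hl1, hp⟩ : ∃ x ∈ X, ∃ l1, Red X Y false l1 ∧ l.prod = x * l1.prod := by
    rcases l with _ | ⟨x, l1⟩
    · exact ⟨1, one_mem _, [], red_nil _, by simp⟩
    · cases b
      · exact ⟨1, one_mem _, x :: l1, h1, by simp⟩
      · exact ⟨x, h1.1.1, l1, h1.2, by simp⟩
  rw [hp]
  rcases List.eq_nil_or_concat' l1 with rfl | ⟨l2, y, rfl⟩
  · exact Or.inl ⟨x, hx, e, h2.2, by simp⟩
  rcases Nat.even_or_odd l2.length with hev | hod
  · rw [red_append, red_singleton, fl_even hev] at hl1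
    have hy : y * e ∈ Y := mul_mem hl1.2.1 h2.2
    by_cases hne : l2 = []
    · subst hne
      exact Or.inl ⟨x, hx, y * e, hy, by simp [mul_assoc]⟩
    · refine Or.inr ⟨x, hx, y * e, hy, l2, hl1.1, hne, hev, ?_⟩
      rw [List.prod_append, List.prod_singleton]
      group
  · refine Or.inr ⟨x, hx, e, h2.2, l2 ++ [y], hl1, by simp, ?_, rfl⟩
    rw [List.length_append, List.length_singleton]
    exact hod.add_odd odd_one

/-- intersection of `X` with a conjugate of `Y` -/
theorem inter_conj {l : List G} (hl : Red X Y false l) (hne : l ≠ []) (hev : Even l.length)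
    {y : G} (hy : y ∈ Y) (hX : l.prod * y * l.prod⁻¹ ∈ X) : l.prod * y * l.prod⁻¹ ∈ X ⊓ Y := by
  obtain ⟨x, hx⟩ : ∃ x, x = l.prod * y * l.prod⁻¹ := ⟨_, rfl⟩
  rw [← hx] at hX ⊢
  by_contra hE
  have hlt : Lt X Y true x := lt_of_notMem hX hE
  have hred : Red X Y true (x :: l) := ⟨hlt, hl⟩
  have hmul : x * l.prod = l.prod * y := by rw [hx]; group
  by_cases hyE : y ∈ X ⊓ Y
  · have := (h.unique (l := x :: l) (l' := l) (e := y⁻¹) (e' := 1) hred hl (inv_mem hyE)
      (one_mem _) (by rw [List.prod_cons, hmul]; group)).1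
    simp at this
  · have hylt : Lt X Y false y := lt_of_notMem hy hyE
    have hred2 : Red X Y false (l ++ [y]) := by
      rw [red_append, red_singleton, fl_even hev]
      exact ⟨hl, hylt⟩
    have := (h.unique (l := x :: l) (l' := l ++ [y]) (e := 1) (e' := 1) hred hred2 (one_mem _)
      (one_mem _) (by rw [List.prod_cons, hmul, List.prod_append, List.prod_singleton]; group)).2 1
    rcases l with _ | ⟨g, l⟩
    · exact hne rfl
    · simp only [List.take_succ_cons, List.take_zero, List.prod_cons, List.prod_nil, mul_one,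
        List.cons_append] at this
      have h3 : Lt X Y true g := by
        have := hlt.mul_right this
        simpa using this
      exact absurd (h3.unique hl.1) (by simp)

/-- the letters of a word which conjugates `X ⊓ Y` into a factor centralize `X ⊓ Y` -/
theorem letters_comm
    (hN : ∀ c, ∀ x ∈ side X Y c, (∀ e ∈ X ⊓ Y, x⁻¹ * e * x ∈ X ⊓ Y) → ∀ e ∈ X ⊓ Y, Commute x e)
    {l : List G} : ∀ {b : Bool}, Red X Y b l →
    (∀ e ∈ X ⊓ Y, l.prod⁻¹ * e * l.prod ∈ side X Y (fl b l.length)) →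
    ∀ e ∈ X ⊓ Y, Commute l.prod e := by
  induction l with
  | nil => intro b _ _ e _; simp
  | cons x l ih =>
    intro b hl H
    have h1 : ∀ e ∈ X ⊓ Y, x⁻¹ * e * x ∈ X ⊓ Y := by
      intro e he
      by_contra hE
      have hs : x⁻¹ * e * x ∈ side X Y b :=
        mul_mem (mul_mem (inv_mem hl.1.1) (mem_side_of_mem_E he b)) hl.1.1
      have h2 := H e he
      rw [List.prod_cons, List.length_cons, fl_succ] at h2
      by_cases hnil : l = []
      · subst hnil
        simp only [List.prod_nil, mul_one, List.length_nil, fl_zero] at h2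
        exact hE (mem_E hs h2)
      · have hred : Red X Y (fl (!b) (l.length + 1)) (iv l ++ (x⁻¹ * e * x) :: l) := by
          rw [red_append, red_cons, iv_length, fl_fl]
          have : Odd (l.length + 1 + l.length) := ⟨l.length, by ring⟩
          rw [fl_odd this, Bool.not_not]
          exact ⟨hl.2.iv, lt_of_notMem hs hE, hl.2⟩
        have h3 : 2 ≤ (iv l ++ (x⁻¹ * e * x) :: l).length := by
          have : 1 ≤ l.length := by
            rcases l with _ | ⟨a, l⟩
            · exact absurd rfl hnil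
            · simp
          rw [List.length_append, iv_length, List.length_cons]
          omega
        refine h.long_notMem hred h3 (fl (!b) l.length) ?_
        rw [List.prod_append, List.prod_cons, iv_prod]
        convert h2 using 1
        group
    have h2 := hN b x hl.1.1 h1
    have h3 : ∀ e ∈ X ⊓ Y, l.prod⁻¹ * e * l.prod ∈ side X Y (fl (!b) l.length) := by
      intro e he
      have h4 := H e he
      rw [List.length_cons, fl_succ] at h4
      have h5 : (x :: l).prod⁻¹ * e * (x :: l).prod = l.prod⁻¹ * e * l.prod := by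
        rw [List.prod_cons]
        have : x⁻¹ * e * x = e := by rw [mul_assoc, ← (h2 e he).eq, inv_mul_cancel_left]
        calc (x * l.prod)⁻¹ * e * (x * l.prod) = l.prod⁻¹ * (x⁻¹ * e * x) * l.prod := by group
          _ = _ := by rw [this]
      rwa [h5] at h4
    intro e he
    rw [List.prod_cons]
    exact (h2 e he).mul_left (ih hl.2 h3 e he)

/-- folding -/
theorem fold {l : List G} (hl : Red X Y false l) (hne : l ≠ []) (hev : Even l.length)
    (hc : ∀ e ∈ X ⊓ Y, Commute l.prod e) {y0 : G} (hy0 : y0 ∈ Y) (hy0' : y0 ∉ X)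
    {Y' : Subgroup G} (hY' : ∀ g, g ∈ Y' ↔ l.prod⁻¹ * g * l.prod ∈ Y) : X ⊔ Y' ≠ ⊤ := by
  intro htop
  have hEY' : ∀ e ∈ X ⊓ Y, e ∈ Y' := by
    intro e he
    rw [hY', mul_assoc, ← (hc e he).eq, inv_mul_cancel_left]
    exact he.2
  have hEE : ∀ e ∈ X ⊓ Y', e ∈ X ⊓ Y := by
    intro e he
    have h1 := (hY' e).1 he.2
    have h2 : l.prod * (l.prod⁻¹ * e * l.prod) * l.prod⁻¹ = e := by group
    have := h.inter_conj hl hne hev h1 (by rw [h2]; exact he.1)
    rwa [h2] at this
  have expand : ∀ (w : List G) (b : Bool), Red X Y' b w → ∃ W, Red X Y b W ∧ W.prod = w.prod ∧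
      (w ≠ [] → W ≠ []) ∧ (w ≠ [] → b = false → 3 ≤ W.length) := by
    intro w
    induction w with
    | nil => intro b _; exact ⟨[], red_nil _, rfl, fun h => absurd rfl h, fun h => absurd rfl h⟩
    | cons g w ih =>
      intro b hw
      obtain ⟨W, hW1, hW2, hW3, hW4⟩ := ih _ hw.2
      cases b
      · have hg1 : g ∈ Y' := hw.1.1
        have hg2 : g ∉ X := hw.1.2
        have hy := (hY' g).1 hg1
        obtain ⟨y, hyd⟩ : ∃ y, y = l.prod⁻¹ * g * l.prod := ⟨_, rfl⟩
        rw [← hyd] at hy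
        have hyE : y ∉ X ⊓ Y := by
          intro hE
          have h1 := hc y hE
          have h2 : g = y := by
            have : g = l.prod * y * l.prod⁻¹ := by rw [hyd]; group
            rw [this, h1.eq]; group
          exact hg2 (h2 ▸ hE.1)
        refine ⟨(l ++ y :: iv l) ++ W, ?_, ?_, by simp, ?_⟩
        · rw [red_append, red_append, red_cons]
          refine ⟨⟨hl, ?_, ?_⟩, ?_⟩
          · rw [fl_even hev]
            exact lt_of_notMem hy hyE
          · have := hl.iv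
            rwa [fl_succ'] at this
          · have hod : Odd (l ++ y :: iv l).length := by
              rw [List.length_append, List.length_cons, iv_length]
              exact ⟨l.length, by ring⟩
            rw [fl_odd hod]
            exact hW1
        · rw [List.prod_append, List.prod_append, List.prod_cons, iv_prod, List.prod_cons, hW2,
            hyd]
          group
        · intro _ _
          have : 1 ≤ l.length := by
            rcases l with _ | ⟨a, l⟩
            · exact absurd rfl hne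
            · simp
          rw [List.length_append, List.length_append, List.length_cons, iv_length]
          omega
      · have hg1 : g ∈ X := hw.1.1
        have hg2 : g ∉ Y' := hw.1.2
        refine ⟨g :: W, ⟨?_, hW1⟩, by rw [List.prod_cons, List.prod_cons, hW2], by simp, by simp⟩
        exact ⟨hg1, fun hY => hg2 (hEY' g ⟨hg1, hY⟩)⟩
  obtain ⟨w, b, e, hw, he, hy⟩ := exists_nf (X := X) (Y := Y') (g := y0) (by rw [htop]; trivial)
  have heE := hEE e he
  obtain ⟨W, hW1, hW2, hW3, hW4⟩ := expand w b hw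
  have hyE : y0 ∉ X ⊓ Y := fun hE => hy0' hE.1
  have hylt : Red X Y false [y0] := red_singleton.2 (lt_of_notMem hy0 hyE)
  have hlen := (h.unique (l := W) (l' := [y0]) (e := e) (e' := 1) hW1 hylt heE (one_mem _) (by
    rw [hW2, ← hy]; simp)).1
  rw [List.length_singleton, List.length_eq_one_iff] at hlen
  obtain ⟨g, rfl⟩ := hlen
  have hwne : w ≠ [] := by
    rintro rfl
    rw [List.prod_nil, one_mul] at hy
    exact hyE (hy ▸ heE)
  cases b
  · have := hW4 hwne rfl
    simp at this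
  · have hg : Lt X Y true g := red_singleton.1 hW1
    have : y0 = g * e := by rw [hy, ← hW2]; simp
    exact hy0' (this ▸ mul_mem hg.1 heE.1)

end Amalg

/-- conditions which make the splitting canonical -/
structure Rigid (X Y : Subgroup G) : Prop extends Amalg X Y where
  ab : ∀ e ∈ X ⊓ Y, ∀ e' ∈ X ⊓ Y, Commute e e'
  root : ∀ c, ∀ u ∈ side X Y c, ∀ n, 1 ≤ n → u ^ n ∈ X ⊓ Y → u ∈ X ⊓ Y
  cen : ∀ c, ∃ z ∈ side X Y c, z ∉ X ⊓ Y ∧ (∀ x ∈ side X Y c, Commute z x) ∧
    ∃ a ∈ side X Y c, ∃ b ∈ side X Y c, ∃ m n : ℕ, 1 ≤ m ∧ 1 ≤ n ∧ a ^ m = z ∧ b ^ n = z ∧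
      ¬ Commute a b
  nonmet : ∀ c, ∃ a ∈ side X Y c, ∃ b ∈ side X Y c, ∃ a' ∈ side X Y c, ∃ b' ∈ side X Y c,
    ¬ Commute (a * b * a⁻¹ * b⁻¹) (a' * b' * a'⁻¹ * b'⁻¹)
  norm : ∀ c, ∀ x ∈ side X Y c, (∀ e ∈ X ⊓ Y, x⁻¹ * e * x ∈ X ⊓ Y) → ∀ e ∈ X ⊓ Y, Commute x e

namespace Rigid

variable (h : Rigid X Y)

include h

theorem image_le (φ : MulAut G) (c : Bool) : ∃ (c' : Bool) (t : G), ∀ x ∈ side X Y c,
    t⁻¹ * φ x * t ∈ side X Y c' := by
  obtain ⟨z, hz, hzE, hzc, a, ha, b, hb, m, n, hm, hn, ham, hbn, hab⟩ := h.cen c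
  rcases h.toAmalg.ell_or_hyp (φ z) with ⟨k, c', hk⟩ | ⟨k, l, b1, h1, h2, h3, h4⟩
  · by_cases hP : ∀ m ∈ side X Y c', m * (k⁻¹ * φ z * k) * m⁻¹ ∉ X ⊓ Y
    · refine ⟨c', k, fun x hx => ?_⟩
      refine h.toAmalg.conj_mem_side hk hP (d := c') ?_
      convert hk using 1
      have : φ x * φ z * (φ x)⁻¹ = φ z := by
        rw [← map_mul, ← (hzc x hx).eq, ← map_inv, ← map_mul]
        congr 1
        group
      calc k⁻¹ * φ x * k * (k⁻¹ * φ z * k) * (k⁻¹ * φ x * k)⁻¹
          = k⁻¹ * (φ x * φ z * (φ x)⁻¹) * k := by group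
        _ = _ := by rw [this]
    · exfalso
      push Not at hP
      obtain ⟨v, hv, hvE⟩ := hP
      have hroot : ∀ g : G, ∀ i, 1 ≤ i → g ^ i = z → v * (k⁻¹ * φ g * k) * v⁻¹ ∈ X ⊓ Y := by
        intro g i hi hg
        refine h.toAmalg.root_closed h.root hi ?_
        have : (v * (k⁻¹ * φ g * k) * v⁻¹) ^ i = v * (k⁻¹ * φ z * k) * v⁻¹ := by
          rw [conj_pow]
          congr 2
          have := conj_pow (a := k⁻¹) (b := φ g) (i := i)
          rw [inv_inv] at this
          rw [this, ← map_pow, hg]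
        rwa [this]
      have h5 := h.ab _ (hroot a m hm ham) _ (hroot b n hn hbn)
      have h6 : Commute (φ a) (φ b) := by
        have := h5
        unfold Commute SemiconjBy at this ⊢
        have h7 : (v * k⁻¹)⁻¹ * (v * (k⁻¹ * φ a * k) * v⁻¹ * (v * (k⁻¹ * φ b * k) * v⁻¹)) *
            (v * k⁻¹) = (v * k⁻¹)⁻¹ * (v * (k⁻¹ * φ b * k) * v⁻¹ * (v * (k⁻¹ * φ a * k) * v⁻¹)) *
            (v * k⁻¹) := by rw [this]
        convert h7 using 1 <;> group
      refine hab ?_
      have := h6.map φ.symm.toMonoidHom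
      simpa using this
  · exfalso
    obtain ⟨a, ha, b, hb, a', ha', b', hb', hne⟩ := h.nonmet c
    have hcom : ∀ x ∈ side X Y c, Commute (k⁻¹ * φ x * k) l.prod := by
      intro x hx
      rw [← h4]
      have h5 : Commute (φ x) (φ z) := ((hzc x hx).symm).map φ.toMonoidHom
      unfold Commute SemiconjBy at h5 ⊢
      calc k⁻¹ * φ x * k * (k⁻¹ * φ z * k) = k⁻¹ * (φ x * φ z) * k := by group
        _ = k⁻¹ * (φ z * φ x) * k := by rw [h5]
        _ = _ := by group
    have h5 := h.toAmalg.comm_mem h1 h2 h3 (hcom a ha) (hcom b hb)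
    have h6 := h.toAmalg.comm_mem h1 h2 h3 (hcom a' ha') (hcom b' hb')
    have h7 := h.ab _ h5 _ h6
    refine hne ?_
    have h8 : Commute (φ (a * b * a⁻¹ * b⁻¹)) (φ (a' * b' * a'⁻¹ * b'⁻¹)) := by
      unfold Commute SemiconjBy at h7 ⊢
      obtain ⟨p, hp⟩ : ∃ p, p = k⁻¹ * φ a * k * (k⁻¹ * φ b * k) * (k⁻¹ * φ a * k)⁻¹ *
        (k⁻¹ * φ b * k)⁻¹ := ⟨_, rfl⟩
      obtain ⟨q, hq⟩ : ∃ q, q = k⁻¹ * φ a' * k * (k⁻¹ * φ b' * k) * (k⁻¹ * φ a' * k)⁻¹ *
        (k⁻¹ * φ b' * k)⁻¹ := ⟨_, rfl⟩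
      have hp' : φ (a * b * a⁻¹ * b⁻¹) = k * p * k⁻¹ := by
        rw [hp]; simp only [map_mul, map_inv]; group
      have hq' : φ (a' * b' * a'⁻¹ * b'⁻¹) = k * q * k⁻¹ := by
        rw [hq]; simp only [map_mul, map_inv]; group
      rw [← hp, ← hq] at h7
      rw [hp', hq']
      calc k * p * k⁻¹ * (k * q * k⁻¹) = k * (p * q) * k⁻¹ := by group
        _ = k * (q * p) * k⁻¹ := by rw [h7]
        _ = _ := by group
    have := h8.map φ.symm.toMonoidHom
    simpa using this

theorem image_eq (φ : MulAut G) (c : Bool) : ∃ (c' : Bool) (t : G), ∀ x,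
    x ∈ side X Y c ↔ t⁻¹ * φ x * t ∈ side X Y c' := by
  obtain ⟨c', t, h1⟩ := h.image_le φ c
  obtain ⟨c'', s, h2⟩ := h.image_le φ.symm c'
  obtain ⟨z, hz, hzE, hzc, -⟩ := h.cen c
  have hP : ∀ m ∈ side X Y c, m * z * m⁻¹ ∉ X ⊓ Y := by
    intro m hm
    rw [← (hzc m hm).eq, mul_assoc, mul_inv_cancel, mul_one]
    exact hzE
  have h3 := h2 _ (h1 z hz)
  have hcalc : ∀ x, s⁻¹ * φ.symm (t⁻¹ * φ x * t) * s =
      (φ.symm t * s)⁻¹ * x * ((φ.symm t * s)⁻¹)⁻¹ := by
    intro x
    have : φ.symm (φ x) = x := φ.symm_apply_apply x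
    rw [map_mul, map_mul, map_inv, this]
    group
  rw [hcalc] at h3
  have h4 := h.toAmalg.conj_mem_side hz hP h3
  have h5 : (φ.symm t * s)⁻¹ * z * ((φ.symm t * s)⁻¹)⁻¹ = z := by
    rw [← (hzc _ h4).eq, mul_assoc, mul_inv_cancel, mul_one]
  rw [h5] at h3
  have h6 : c'' = c := by
    by_contra hcc
    have : c'' = !c := by cases c <;> cases c'' <;> simp_all
    subst this
    exact hzE (mem_E hz h3)
  subst h6
  refine ⟨c', t, fun x => ⟨h1 x, fun hx => ?_⟩⟩
  have h7 := h2 _ hx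
  rw [hcalc] at h7
  have h8 := mul_mem (mul_mem (inv_mem h4) h7) h4
  convert h8 using 1
  group

theorem image_ne (φ : MulAut G) {c' : Bool} {t s : G}
    (h1 : ∀ x, x ∈ X ↔ t⁻¹ * φ x * t ∈ side X Y c')
    (h2 : ∀ x, x ∈ Y ↔ s⁻¹ * φ x * s ∈ side X Y c') : False := by
  obtain ⟨z, hz, hzE, hzc, -⟩ := h.cen true
  have hP : ∀ m ∈ side X Y true, m * z * m⁻¹ ∉ X ⊓ Y := by
    intro m hm
    rw [← (hzc m hm).eq, mul_assoc, mul_inv_cancel, mul_one]
    exact hzE
  have h3 : φ.symm (s * t⁻¹) * z * (φ.symm (s * t⁻¹))⁻¹ ∈ side X Y false := by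
    show _ ∈ Y
    rw [h2]
    have := (h1 z).1 hz
    convert this using 1
    rw [map_mul φ, map_mul φ, map_inv φ]
    have : φ (φ.symm (s * t⁻¹)) = s * t⁻¹ := φ.apply_symm_apply _
    rw [this]
    group
  have h4 := h.toAmalg.conj_mem_side hz hP h3
  rw [← (hzc _ h4).eq, mul_assoc, mul_inv_cancel, mul_one] at h3
  exact hzE ⟨hz, h3⟩

/-- an automorphism which maps `X`, `Y` to conjugates of `X`, `Y` maps them to conjugates by the
same element -/
theorem same_conj (φ : MulAut G) {t s : G} (h1 : ∀ x, x ∈ X ↔ t⁻¹ * φ x * t ∈ X)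
    (h2 : ∀ x, x ∈ Y ↔ s⁻¹ * φ x * s ∈ Y) :
    ∃ r, ∀ x, (x ∈ X ↔ r⁻¹ * φ x * r ∈ X) ∧ (x ∈ Y ↔ r⁻¹ * φ x * r ∈ Y) := by
  rcases h.toAmalg.dcoset (t⁻¹ * s) with ⟨x1, hx1, y1, hy1, he⟩ |
    ⟨x1, hx1, y1, hy1, l, hl, hne, hev, he⟩
  · have hs : s = t * x1 * y1 := by rw [mul_assoc, ← he]; group
    refine ⟨t * x1, fun x => ⟨?_, ?_⟩⟩
    · rw [h1 x]
      constructor
      · intro hx
        have := mul_mem (mul_mem (inv_mem hx1) hx) hx1
        convert this using 1
        group
      · intro hx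
        have := mul_mem (mul_mem hx1 hx) (inv_mem hx1)
        convert this using 1
        group
    · rw [h2 x, hs]
      constructor
      · intro hx
        have := mul_mem (mul_mem hy1 hx) (inv_mem hy1)
        convert this using 1
        group
      · intro hx
        have := mul_mem (mul_mem (inv_mem hy1) hx) hy1
        convert this using 1
        group
  · exfalso
    obtain ⟨L, hL⟩ : ∃ L, L = l.prod := ⟨_, rfl⟩
    obtain ⟨θ, hθ⟩ : ∃ θ : MulAut G, θ = MulAut.conj (t * x1)⁻¹ * φ := ⟨_, rfl⟩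
    have hθa : ∀ x, θ x = (t * x1)⁻¹ * φ x * (t * x1) := by
      intro x
      rw [hθ, MulAut.mul_apply, MulAut.conj_apply, inv_inv]
    have hs : s = t * x1 * L * y1 := by
      have : s = t * (t⁻¹ * s) := by group
      rw [this, he, hL]; group
    have hX : ∀ x, x ∈ X ↔ θ x ∈ X := by
      intro x
      rw [h1 x, hθa]
      constructor
      · intro hx
        have := mul_mem (mul_mem (inv_mem hx1) hx) hx1
        convert this using 1
        group
      · intro hx
        have := mul_mem (mul_mem hx1 hx) (inv_mem hx1)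
        convert this using 1
        group
    have hY : ∀ x, x ∈ Y ↔ L⁻¹ * θ x * L ∈ Y := by
      intro x
      rw [h2 x, hs, hθa]
      constructor
      · intro hx
        have := mul_mem (mul_mem hy1 hx) (inv_mem hy1)
        convert this using 1
        group
      · intro hx
        have := mul_mem (mul_mem (inv_mem hy1) hx) hy1
        convert this using 1
        group
    have hEE : ∀ e ∈ X ⊓ Y, θ e ∈ X ⊓ Y := by
      intro e hE
      have h3 := (hY e).1 hE.2
      have h4 : l.prod * (L⁻¹ * θ e * L) * l.prod⁻¹ = θ e := by rw [← hL]; group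
      have := h.toAmalg.inter_conj hl hne hev h3 (by rw [h4]; exact (hX e).1 hE.1)
      rwa [h4] at this
    have hsymm : ∀ g, θ (θ.symm g) = g := θ.apply_symm_apply
    -- `E ≤ θ E`
    have hEθ : ∀ e ∈ X ⊓ Y, ∃ e' ∈ X ⊓ Y, θ e' = e := by
      obtain ⟨x2, hx2, H⟩ : ∃ x2 ∈ X, ∀ e ∈ X ⊓ Y, x2⁻¹ * θ.symm e * x2 ∈ X ⊓ Y := by
        have hPE : ∀ e ∈ X ⊓ Y, θ.symm e ∈ X ∧ θ.symm L * θ.symm e * (θ.symm L)⁻¹ ∈ Y := by
          intro e hE
          refine ⟨(hX _).2 (by rw [hsymm]; exact hE.1), (hY _).2 ?_⟩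
          rw [map_mul, map_mul, map_inv, hsymm, hsymm]
          have e1 : L⁻¹ * (L * e * L⁻¹) * L = e := by group
          rw [e1]
          exact hE.2
        rcases h.toAmalg.dcoset ((θ.symm L)⁻¹) with ⟨x2, hx2, y2, hy2, hP⟩ |
          ⟨x2, hx2, y2, hy2, l2, hl2, hne2, hev2, hP⟩
        · refine ⟨x2, hx2, fun e hE => ?_⟩
          obtain ⟨h3, h4⟩ := hPE e hE
          refine ⟨mul_mem (mul_mem (Subgroup.inv_mem X hx2) h3) hx2, ?_⟩
          have h5 : θ.symm L = y2⁻¹ * x2⁻¹ := by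
            rw [← inv_inv (θ.symm L), hP]; group
          rw [h5] at h4
          have h6 := mul_mem (mul_mem hy2 h4) (inv_mem hy2)
          have e1 : y2 * (y2⁻¹ * x2⁻¹ * θ.symm e * (y2⁻¹ * x2⁻¹)⁻¹) * y2⁻¹ =
              x2⁻¹ * θ.symm e * x2 := by group
          rwa [e1] at h6
        · refine ⟨x2, hx2, fun e hE => ?_⟩
          obtain ⟨h3, h4⟩ := hPE e hE
          have h5 : θ.symm L = y2⁻¹ * l2.prod⁻¹ * x2⁻¹ := by
            rw [← inv_inv (θ.symm L), hP]; group
          rw [h5] at h4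
          have h6 := mul_mem (mul_mem hy2 h4) (inv_mem hy2)
          have h7 : l2.prod * (y2 * (y2⁻¹ * l2.prod⁻¹ * x2⁻¹ * θ.symm e *
              (y2⁻¹ * l2.prod⁻¹ * x2⁻¹)⁻¹) * y2⁻¹) * l2.prod⁻¹ = x2⁻¹ * θ.symm e * x2 := by
            group
          have := h.toAmalg.inter_conj hl2 hne2 hev2 h6 (by
            rw [h7]; exact mul_mem (mul_mem (inv_mem hx2) h3) hx2)
          rwa [h7] at this
      have h3 : ∀ e ∈ X ⊓ Y, (θ x2)⁻¹ * e * θ x2 ∈ X ⊓ Y := by
        intro e hE
        have := hEE _ (H e hE)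
        rw [map_mul, map_mul, map_inv, hsymm] at this
        exact this
      have h4 := h.norm true (θ x2) ((hX x2).1 hx2) h3
      intro e hE
      refine ⟨_, H e hE, ?_⟩
      rw [map_mul, map_mul, map_inv, hsymm, mul_assoc, ← (h4 e hE).eq, inv_mul_cancel_left]
    have hLY : ∀ e ∈ X ⊓ Y, l.prod⁻¹ * e * l.prod ∈ side X Y (fl false l.length) := by
      intro e hE
      obtain ⟨e', hE', rfl⟩ := hEθ e hE
      rw [fl_even hev, ← hL]
      exact (hY e').1 hE'.2
    have hcomm := h.toAmalg.letters_comm h.norm hl hLY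
    obtain ⟨z, hz, hzE, -⟩ := h.cen false
    refine h.toAmalg.fold hl hne hev hcomm (y0 := z) hz (fun hzX => hzE ⟨hzX, hz⟩)
      (Y' := Y.comap (MulAut.conj (l.prod⁻¹)).toMonoidHom) (fun g => ?_) ?_
    · rw [Subgroup.mem_comap]
      simp
    · rw [eq_top_iff]
      intro g _
      have h5 : θ.symm g ∈ X ⊔ Y := by rw [h.gen]; trivial
      rw [Subgroup.sup_eq_closure] at h5
      have h6 : ∀ y ∈ Subgroup.closure ((X : Set G) ∪ (Y : Set G)),
          θ y ∈ X ⊔ Y.comap (MulAut.conj (l.prod⁻¹)).toMonoidHom := by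
        intro y hy
        induction hy using Subgroup.closure_induction with
        | mem x hx =>
          rcases hx with hx | hx
          · exact Subgroup.mem_sup_left ((hX x).1 hx)
          · refine Subgroup.mem_sup_right ?_
            rw [Subgroup.mem_comap]
            have := (hY x).1 hx
            rw [hL] at this
            simpa using this
        | one => rw [map_one]; exact one_mem _
        | mul x y _ _ hx hy => rw [map_mul]; exact mul_mem hx hy
        | inv x _ hx => rw [map_inv θ]; exact inv_mem hx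
      have := h6 _ h5
      rwa [hsymm] at this

end Rigid

end Pool.MP_a3a325_al.Am
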