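import Pool.Agent.Lib_helper76.AM.Cyc

set_option autoImplicit false

/-!
# Amalgamated products: centralizers of hyperbolic elements
-/

namespace Pool.MP_a3a325_al.Am

variable {G : Type*} [Group G] {X Y : Subgroup G}

/-- product of the first `i` letters of the periodic word -/
def gam (l : List G) (i : ℕ) : G := ((pw l (i + 1)).take i).prod

lemma pw_take {l : List G} {M N i : ℕ} (h : N ≤ M) (hi : i ≤ N * l.length) :
    (pw l M).take i = (pw l N).take i := by
  obtain ⟨k, rfl⟩ := Nat.exists_eq_add_of_le h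
  rw [pw_add, List.take_append_of_le_length (by rwa [pw_length])]

lemma gam_eq {l : List G} (hne : l ≠ []) {i N : ℕ} (hi : i ≤ N * l.length) :
    ((pw l N).take i).prod = gam l i := by
  have h1 : 1 ≤ l.length := by
    rcases l with _ | ⟨a, l⟩
    · exact absurd rfl hne
    · simp
  have h2 : i ≤ (i + 1) * l.length := by
    calc i ≤ (i + 1) * 1 := by omega
      _ ≤ (i + 1) * l.length := Nat.mul_le_mul_left _ h1
  unfold gam
  rcases le_total N (i + 1) with h | h
  · rw [pw_take h hi]
  · rw [pw_take h h2]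

lemma gam_add {l : List G} (hne : l ≠ []) (m i : ℕ) :
    gam l (m * l.length + i) = l.prod ^ m * gam l i := by
  have h1 : 1 ≤ l.length := by
    rcases l with _ | ⟨a, l⟩
    · exact absurd rfl hne
    · simp
  have h2 : i ≤ (i + 1) * l.length := by
    calc i ≤ (i + 1) * 1 := by omega
      _ ≤ (i + 1) * l.length := Nat.mul_le_mul_left _ h1
  rw [← gam_eq hne (N := m + (i + 1)) (by rw [Nat.add_mul]; omega), pw_add,
    ← pw_length l m, List.take_length_add_append, List.prod_append, pw_prod, gam]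

lemma gam_zero (l : List G) : gam l 0 = 1 := by simp [gam]

lemma gam_succ {l : List G} {b : Bool} (hne : l ≠ []) (hl : Red X Y b l) (hev : Even l.length)
    (i : ℕ) : ∃ x, Lt X Y (fl b i) x ∧ gam l (i + 1) = gam l i * x := by
  have h1 : 1 ≤ l.length := by
    rcases l with _ | ⟨a, l⟩
    · exact absurd rfl hne
    · simp
  obtain ⟨W, hW⟩ : ∃ W, W = pw l (i + 1) := ⟨_, rfl⟩
  have hlen : i + 1 ≤ (i + 1) * l.length := by
    calc i + 1 = (i + 1) * 1 := by omega
      _ ≤ (i + 1) * l.length := Nat.mul_le_mul_left _ h1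
  have hi : i < W.length := by rw [hW, pw_length]; omega
  have hred : Red X Y b W := by rw [hW]; exact red_pw hl hev _
  refine ⟨W[i], ?_, ?_⟩
  · rw [← List.take_append_drop i W, red_append, List.drop_eq_getElem_cons hi, red_cons,
      List.length_take, min_eq_left hi.le] at hred
    exact hred.2.1
  · rw [← gam_eq hne hlen, ← gam_eq hne (le_trans (Nat.le_succ i) hlen), ← hW,
      List.take_succ_eq_append_getElem hi, List.prod_append, List.prod_singleton]

lemma iv_take (l : List G) (k : ℕ) : iv (l.take k) = (iv l).drop (l.length - k) := by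
  simp only [iv, List.map_take]
  rw [List.reverse_take]
  simp

namespace Amalg

variable (h : Amalg X Y)

include h

theorem shift {l : List G} {b : Bool} (hl : Red X Y b l) (hne : l ≠ []) (hev : Even l.length)
    {t : G} {m : ℕ} (hm : 1 ≤ m) (hc : t * l.prod ^ m = l.prod ^ m * t) :
    ∃ a r : ℕ, ∀ j, (gam l (a + j))⁻¹ * t * gam l (r + j) ∈ X ⊓ Y := by
  have hl1 : 1 ≤ l.length := by
    rcases l with _ | ⟨a, l⟩
    · exact absurd rfl hne
    · simp
  obtain ⟨m1, d, e1, hm1, he1, ht⟩ := h.nf t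
  obtain ⟨m2, hm2⟩ : ∃ m2, m2 = m1 ++ [e1] := ⟨_, rfl⟩
  have hm2s : ∀ y ∈ m2, ∃ c, y ∈ side X Y c := by
    intro y hy
    rw [hm2, List.mem_append, List.mem_singleton] at hy
    rcases hy with hy | rfl
    · exact red_mem hm1 y hy
    · exact ⟨true, mem_side_of_mem_E he1 true⟩
  have hm2p : m2.prod = t := by
    rw [hm2, List.prod_append, List.prod_singleton, ht]
  have hivs : ∀ y ∈ iv m2, ∃ c, y ∈ side X Y c := by
    intro y hy
    simp only [iv, List.mem_reverse, List.mem_map] at hy
    obtain ⟨a, ha, rfl⟩ := hy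
    obtain ⟨c, hc⟩ := hm2s a ha
    exact ⟨c, inv_mem hc⟩
  obtain ⟨R, hR⟩ : ∃ R, R = m2.length := ⟨_, rfl⟩
  obtain ⟨P, hP⟩ : ∃ P, P = m * l.length := ⟨_, rfl⟩
  have hP1 : 1 ≤ P := by
    rw [hP]
    exact Nat.one_le_iff_ne_zero.2 (Nat.mul_ne_zero (by omega) (by omega))
  obtain ⟨N, hN⟩ : ∃ N, N = m * (3 * R + 1) := ⟨_, rfl⟩
  obtain ⟨L, hL⟩ : ∃ L, L = N * l.length := ⟨_, rfl⟩
  have hLP : L = P * (3 * R + 1) := by rw [hL, hN, hP]; ring
  have hLb : 3 * R + P ≤ L := by
    rw [hLP, Nat.mul_add, mul_one]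
    have : 1 * (3 * R) ≤ P * (3 * R) := Nat.mul_le_mul_right _ hP1
    omega
  obtain ⟨W, hW⟩ : ∃ W, W = pw l N := ⟨_, rfl⟩
  have hWl : W.length = L := by rw [hW, pw_length, hL]
  have hWr : Red X Y b W := by rw [hW]; exact red_pw hl hev N
  have hWp : W.prod = l.prod ^ N := by rw [hW, pw_prod]
  have hcN : t * W.prod = W.prod * t := by
    rw [hWp, hN, pow_mul]
    exact (Commute.pow_right (show Commute t (l.prod ^ m) from hc) (3 * R + 1))
  obtain ⟨l1, b1, e2, k1, k2, k3, k4, -, -, -⟩ := mul_word m2 hWr (one_mem (X ⊓ Y)) hm2s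
  rw [← hR, hWl] at k4
  rw [hm2p, mul_one] at k3
  obtain ⟨l2, b2, e3, p1, p2, p3, p4, p5, p6, -⟩ :=
    mul_word (iv m2) (hWr.iv) (one_mem (X ⊓ Y)) hivs
  rw [iv_length, iv_length, ← hR, hWl] at p4 p5 p6
  rw [iv_prod, iv_prod, hm2p, mul_one] at p3
  obtain ⟨U, hU⟩ : ∃ U, U = iv l2 := ⟨_, rfl⟩
  have hUl : U.length = l2.length := by rw [hU, iv_length]
  have hUp : t * W.prod = e3⁻¹ * U.prod := by
    rw [hU, iv_prod]
    have : (t * W.prod)⁻¹ = l2.prod * e3 := by rw [← p3]; group
    rw [← inv_inv (t * W.prod), this]; group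
  obtain ⟨a, ha⟩ : ∃ a, a = U.length - (L - R) := ⟨_, rfl⟩
  have ha2 : a ≤ 2 * R := by omega
  have hdrop : U.drop a = W.drop R := by
    have h1 := congrArg iv p4
    rw [iv_take, iv_take, iv_iv, iv_length, hWl] at h1
    rw [hU, ha, hUl, h1]
    congr 1
    omega
  have hUsplit : U.prod = (U.take a).prod * (W.drop R).prod := by
    rw [← hdrop, ← List.prod_append, List.take_append_drop]
  have hWsplit : W.prod = (W.take R).prod * (W.drop R).prod := by
    rw [← List.prod_append, List.take_append_drop]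
  have hkey : e3⁻¹ * (U.take a).prod = t * (W.take R).prod := by
    rw [hUsplit, hWsplit, ← mul_assoc, ← mul_assoc] at hUp
    exact (mul_right_cancel hUp).symm
  have huniq := (h.unique (l := l1) (l' := U) (e := e2) (e' := e3⁻¹) k1
    (b' := fl b2 (l2.length + 1)) (by rw [hU]; exact p1.iv) k2 (inv_mem p2) (by
      rw [← k3, ← hUp, hcN])).2
  -- the statement for one period
  have hper : ∀ j < P, (gam l (a + j))⁻¹ * t * gam l (R + j) ∈ X ⊓ Y := by
    intro j hj
    have h1 := huniq (a + j)
    have h2 : l1.take (a + j) = W.take (a + j) := by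
      have e1 : l1.take (a + j) = (l1.take (L - R)).take (a + j) := by
        rw [List.take_take, min_eq_left (by omega)]
      rw [e1, k4, List.take_take, min_eq_left (by omega)]
    have h3 : (U.take (a + j)).prod = (U.take a).prod * ((W.drop R).take j).prod := by
      rw [← hdrop, ← List.prod_append]
      congr 1
      have e1 : U.take (a + j) = (U.take a ++ U.drop a).take (a + j) := by
        rw [List.take_append_drop]
      have e2 : (U.take a).length = a := by
        rw [List.length_take]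
        omega
      rw [e1]
      conv_lhs => rw [show a + j = (U.take a).length + j by rw [e2]]
      rw [List.take_length_add_append]
    have h4 : (W.take R).prod * ((W.drop R).take j).prod = gam l (R + j) := by
      rw [← gam_eq hne (N := N) (by rw [← hL]; omega), ← hW, ← List.prod_append]
      congr 1
      have e2 : (W.take R).length = R := by
        rw [List.length_take]
        omega
      have e1 : W.take (R + j) = (W.take R ++ W.drop R).take (R + j) := by
        rw [List.take_append_drop]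
      rw [e1]
      conv_rhs => rw [show R + j = (W.take R).length + j by rw [e2]]
      rw [List.take_length_add_append]
    have h5 : (W.take (a + j)).prod = gam l (a + j) := by
      rw [hW]
      exact gam_eq hne (by rw [← hL]; omega)
    rw [h2, h3, h5] at h1
    have h6 : (gam l (a + j))⁻¹ * t * gam l (R + j) =
        (gam l (a + j))⁻¹ * e3⁻¹ * ((U.take a).prod * ((W.drop R).take j).prod) := by
      rw [← h4, mul_assoc _ e3⁻¹, ← mul_assoc e3⁻¹, hkey]
      group
    rw [h6]
    exact h1
  refine ⟨a, R, fun j => ?_⟩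
  have h1 := hper (j % P) (Nat.mod_lt _ (by omega))
  have h2 : j = (m * (j / P)) * l.length + j % P := by
    conv_lhs => rw [← Nat.div_add_mod j P]
    rw [hP]; ring
  have h3 : gam l (a + j) = l.prod ^ (m * (j / P)) * gam l (a + j % P) := by
    rw [← gam_add hne]
    congr 1
    conv_lhs => rw [h2]
    ring
  have h4 : gam l (R + j) = l.prod ^ (m * (j / P)) * gam l (R + j % P) := by
    rw [← gam_add hne]
    congr 1
    conv_lhs => rw [h2]
    ring
  have h5 : t * l.prod ^ (m * (j / P)) = l.prod ^ (m * (j / P)) * t := by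
    rw [pow_mul]
    exact (Commute.pow_right (show Commute t (l.prod ^ m) from hc) (j / P))
  rw [h3, h4]
  convert h1 using 1
  have : (l.prod ^ (m * (j / P)) * gam l (a + j % P))⁻¹ * t *
      (l.prod ^ (m * (j / P)) * gam l (R + j % P)) =
      (gam l (a + j % P))⁻¹ * (l.prod ^ (m * (j / P)))⁻¹ *
        (t * l.prod ^ (m * (j / P))) * gam l (R + j % P) := by group
  rw [this, h5]
  group

/-- commutators in the centralizer of a cyclically reduced word are in `X ⊓ Y` -/
theorem comm_mem {l : List G} {b : Bool} (hl : Red X Y b l) (hne : l ≠ []) (hev : Even l.length)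
    {s t : G} (hs : Commute s l.prod) (ht : Commute t l.prod) :
    s * t * s⁻¹ * t⁻¹ ∈ X ⊓ Y := by
  have hl1 : 1 ≤ l.length := by
    rcases l with _ | ⟨a, l⟩
    · exact absurd rfl hne
    · simp
  obtain ⟨a1, r1, H1⟩ := h.shift hl hne hev (t := s) (m := 1) le_rfl (by simpa using hs.eq)
  obtain ⟨a2, r2, H2⟩ := h.shift hl hne hev (t := t) (m := 1) le_rfl (by simpa using ht.eq)
  obtain ⟨K, hK⟩ : ∃ K, K = a1 + a2 + r1 + r2 := ⟨_, rfl⟩
  obtain ⟨I, hI⟩ : ∃ I, I = K * l.length := ⟨_, rfl⟩
  have hIK : K ≤ I := by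
    rw [hI]
    calc K = K * 1 := (mul_one K).symm
      _ ≤ K * l.length := Nat.mul_le_mul_left K hl1
  have hgI : gam l I = l.prod ^ K := by
    have := gam_add hne K 0
    rw [add_zero, gam_zero, mul_one] at this
    rw [hI, this]
  have c1 := H2 (I - a2)
  have c2 := H1 (I - a2 + r2 - a1)
  have c3 := H2 (I - a2 - a1 + r1)
  have c4 := H1 (I - a1)
  have e1 : a2 + (I - a2) = I := by omega
  have e2 : r2 + (I - a2) = a1 + (I - a2 + r2 - a1) := by omega
  have e3 : r1 + (I - a2 + r2 - a1) = r2 + (I - a2 - a1 + r1) := by omega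
  have e4 : a2 + (I - a2 - a1 + r1) = r1 + (I - a1) := by omega
  have e5 : a1 + (I - a1) = I := by omega
  rw [e1, e2] at c1
  rw [e3] at c2
  rw [e4] at c3
  rw [e5] at c4
  have key := mul_mem (mul_mem c4 c3) (mul_mem (inv_mem c2) (inv_mem c1))
  have h1 : (gam l I)⁻¹ * (s * t * s⁻¹ * t⁻¹) * gam l I ∈ X ⊓ Y := by
    convert key using 1
    group
  have h2 : Commute (s * t * s⁻¹ * t⁻¹) (gam l I) := by
    rw [hgI]
    exact (((hs.mul_left ht).mul_left hs.inv_left).mul_left ht.inv_left).pow_right K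
  have h3 : (gam l I)⁻¹ * (s * t * s⁻¹ * t⁻¹) * gam l I = s * t * s⁻¹ * t⁻¹ := by
    rw [mul_assoc, h2.eq, inv_mul_cancel_left]
  rwa [h3] at h1

/-- the centralizer of a power of a word with two letters, if `X ⊓ Y` is central -/
theorem centralizer_two {x y : G} {b : Bool} (hl : Red X Y b [x, y])
    (hcen : ∀ e ∈ X ⊓ Y, ∀ g : G, Commute e g)
    {t : G} {m : ℕ} (hm : 1 ≤ m) (hc : Commute t ((x * y) ^ m)) :
    ∃ k : ℤ, ∃ e ∈ X ⊓ Y, t = (x * y) ^ k * e := by
  have hne : ([x, y] : List G) ≠ [] := by simp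
  have hev : Even ([x, y] : List G).length := by simp
  have hp : ([x, y] : List G).prod = x * y := by simp
  obtain ⟨a, r, H⟩ := h.shift hl hne hev (t := t) hm (by rw [hp]; exact hc.eq)
  have hpar : Even (a + r) := by
    obtain ⟨u, hu, hu'⟩ := gam_succ hne hl hev a
    obtain ⟨v, hv, hv'⟩ := gam_succ hne hl hev r
    have h0 := H 0
    have h1 := H 1
    simp only [add_zero] at h0
    rw [hu', hv'] at h1
    have h2 : v = ((gam [x, y] a)⁻¹ * t * gam [x, y] r)⁻¹ * (u *
        ((gam [x, y] a * u)⁻¹ * t * (gam [x, y] r * v))) := by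
      group
    have h3 : Lt X Y (fl b a) v := by
      rw [h2]
      exact (hu.mul_right h1).mul_left (inv_mem h0)
    exact fl_inj (h3.unique hv)
  have hg : ∀ k, gam [x, y] (2 * k) = (x * y) ^ k := by
    intro k
    have := gam_add hne k 0
    rw [add_zero, gam_zero, mul_one, hp] at this
    rw [← this]
    congr 1
    simp [mul_comm]
  have h1 := H r
  obtain ⟨s, hs⟩ := hpar
  have e1 : a + r = 2 * s := by omega
  have e2 : r + r = 2 * r := by omega
  rw [e1, e2, hg, hg] at h1
  refine ⟨(s : ℤ) - r, _, h1, ?_⟩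
  have hcc := hcen _ h1 ((x * y) ^ r)
  have : t = (x * y) ^ s * (((x * y) ^ s)⁻¹ * t * (x * y) ^ r) * ((x * y) ^ r)⁻¹ := by group
  conv_lhs => rw [this]
  rw [mul_assoc, hcc.inv_right.eq, ← mul_assoc, zpow_sub, zpow_natCast, zpow_natCast]

end Amalg

end Pool.MP_a3a325_al.Am
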