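import Mathlib

set_option autoImplicit false

/-!
# Amalgamated products inside a group: reduced words
-/

namespace Pool.MP_a3a325_al.Am

variable {G : Type*} [Group G]

/-- the two factors -/
def side (X Y : Subgroup G) : Bool → Subgroup G
  | true => X
  | false => Y

/-- a letter of side `b` -/
def Lt (X Y : Subgroup G) (b : Bool) (g : G) : Prop := g ∈ side X Y b ∧ g ∉ side X Y (!b)

/-- alternating words without letters in `X ⊓ Y`; `b` is the side of the first letter -/
def Red (X Y : Subgroup G) : Bool → List G → Prop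
  | _, [] => True
  | b, g :: l => Lt X Y b g ∧ Red X Y (!b) l

/-- the side after `n` letters -/
def fl (b : Bool) (n : ℕ) : Bool := b ^^ n.bodd

/-- inverse word -/
def iv (l : List G) : List G := (l.map (·⁻¹)).reverse

/-- `G` is the amalgamated product of `X` and `Y` over `X ⊓ Y` -/
structure Amalg (X Y : Subgroup G) : Prop where
  gen : X ⊔ Y = ⊤
  red : ∀ b l, Red X Y b l → l ≠ [] → l.prod ≠ 1

@[simp] lemma fl_zero (b : Bool) : fl b 0 = b := by simp [fl]
lemma fl_succ (b : Bool) (n : ℕ) : fl b (n + 1) = fl (!b) n := by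
  simp [fl, Nat.bodd_succ]
lemma fl_succ' (b : Bool) (n : ℕ) : fl b (n + 1) = !(fl b n) := by
  simp [fl, Nat.bodd_succ]
lemma fl_fl (b : Bool) (m n : ℕ) : fl (fl b m) n = fl b (m + n) := by
  simp [fl, Nat.bodd_add]
lemma fl_even {b : Bool} {n : ℕ} (h : Even n) : fl b n = b := by
  obtain ⟨k, rfl⟩ := h
  simp [fl, Nat.bodd_add]
lemma fl_odd {b : Bool} {n : ℕ} (h : Odd n) : fl b n = !b := by
  obtain ⟨k, rfl⟩ := h
  rw [fl_succ', fl_even (even_two_mul k)]
lemma fl_inj {b : Bool} {m n : ℕ} (h : fl b m = fl b n) : Even (m + n) := by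
  by_contra hc
  have hodd := Nat.not_even_iff_odd.1 hc
  have h1 : fl (fl b m) n = fl b (m + n) := fl_fl b m n
  rw [fl_odd hodd, h, fl_fl, fl_even (b := b) ⟨n, rfl⟩] at h1
  cases b <;> simp at h1

variable {X Y : Subgroup G}

lemma iv_length (l : List G) : (iv l).length = l.length := by simp [iv]
lemma iv_prod (l : List G) : (iv l).prod = l.prod⁻¹ := (List.prod_inv_reverse l).symm
@[simp] lemma iv_nil : iv ([] : List G) = [] := rfl
lemma iv_cons (g : G) (l : List G) : iv (g :: l) = iv l ++ [g⁻¹] := by simp [iv]
lemma iv_append (l m : List G) : iv (l ++ m) = iv m ++ iv l := by simp [iv]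
lemma iv_iv (l : List G) : iv (iv l) = l := by simp [iv]

lemma mem_side_of_mem_E {e : G} (he : e ∈ X ⊓ Y) (b : Bool) : e ∈ side X Y b := by
  cases b
  · exact he.2
  · exact he.1

lemma mem_E {g : G} {b : Bool} (h1 : g ∈ side X Y b) (h2 : g ∈ side X Y (!b)) : g ∈ X ⊓ Y := by
  cases b
  · exact ⟨h2, h1⟩
  · exact ⟨h1, h2⟩

lemma Lt.notMem {g : G} {b : Bool} (h : Lt X Y b g) : g ∉ X ⊓ Y := fun h' =>
  h.2 (mem_side_of_mem_E h' _)

lemma lt_of_notMem {g : G} {b : Bool} (h1 : g ∈ side X Y b) (h2 : g ∉ X ⊓ Y) : Lt X Y b g :=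
  ⟨h1, fun h => h2 (mem_E h1 h)⟩

lemma Lt.inv {g : G} {b : Bool} (h : Lt X Y b g) : Lt X Y b g⁻¹ :=
  ⟨inv_mem h.1, fun h' => h.2 (by simpa using inv_mem h')⟩

lemma Lt.mul_left {g e : G} {b : Bool} (h : Lt X Y b g) (he : e ∈ X ⊓ Y) : Lt X Y b (e * g) :=
  ⟨mul_mem (mem_side_of_mem_E he b) h.1, fun h' => h.2 (by
    have := mul_mem (inv_mem (mem_side_of_mem_E he (!b))) h'
    simpa [mul_assoc] using this)⟩

lemma Lt.mul_right {g e : G} {b : Bool} (h : Lt X Y b g) (he : e ∈ X ⊓ Y) : Lt X Y b (g * e) :=
  ⟨mul_mem h.1 (mem_side_of_mem_E he b), fun h' => h.2 (by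
    have := mul_mem h' (inv_mem (mem_side_of_mem_E he (!b)))
    simpa [mul_assoc] using this)⟩

lemma Lt.unique {g : G} {b b' : Bool} (h : Lt X Y b g) (h' : Lt X Y b' g) : b = b' := by
  by_contra hc
  have : b' = !b := by cases b <;> cases b' <;> simp_all
  subst this
  exact h.2 h'.1

@[simp] lemma red_nil (b : Bool) : Red X Y b [] := trivial
lemma red_cons {b : Bool} {g : G} {l : List G} :
    Red X Y b (g :: l) ↔ Lt X Y b g ∧ Red X Y (!b) l := Iff.rfl

lemma red_append {b : Bool} {l m : List G} :
    Red X Y b (l ++ m) ↔ Red X Y b l ∧ Red X Y (fl b l.length) m := by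
  induction l generalizing b with
  | nil => simp
  | cons g l ih =>
    rw [List.cons_append, red_cons, red_cons, ih, List.length_cons, fl_succ]
    tauto

lemma red_singleton {b : Bool} {g : G} : Red X Y b [g] ↔ Lt X Y b g := by
  simp [red_cons]

lemma Red.iv {b : Bool} {l : List G} (h : Red X Y b l) : Red X Y (fl b (l.length + 1)) (iv l) := by
  induction l generalizing b with
  | nil => simp
  | cons g l ih =>
    rw [iv_cons, red_append, List.length_cons, iv_length]
    refine ⟨?_, ?_⟩
    · have := ih h.2
      rwa [fl_succ]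
    · rw [red_singleton, fl_fl]
      have : Even (l.length + 1 + 1 + l.length) := ⟨l.length + 1, by ring⟩
      rw [fl_even this]
      exact h.1.inv

lemma red_take {b : Bool} {l : List G} (h : Red X Y b l) (i : ℕ) : Red X Y b (l.take i) := by
  rw [← List.take_append_drop i l, red_append] at h
  exact h.1

namespace Amalg

variable (h : Amalg X Y)

include h

theorem prod_notMem {b : Bool} {l : List G} (hl : Red X Y b l) (hne : l ≠ []) :
    l.prod ∉ X ⊓ Y := by
  intro he
  cases l with
  | nil => exact hne rfl
  | cons g l =>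
    refine h.red b ((((g :: l).prod)⁻¹ * g) :: l) ⟨hl.1.mul_left (inv_mem he), hl.2⟩
      (List.cons_ne_nil _ _) ?_
    rw [List.prod_cons, List.prod_cons]
    group

theorem unique {l : List G} : ∀ {l' : List G} {b b' : Bool} {e e' : G}, Red X Y b l →
    Red X Y b' l' → e ∈ X ⊓ Y → e' ∈ X ⊓ Y → l.prod * e = e' * l'.prod →
    l.length = l'.length ∧ ∀ i, (l.take i).prod⁻¹ * e' * (l'.take i).prod ∈ X ⊓ Y := by
  induction l with
  | nil =>
    intro l' b b' e e' _ hl' he he' heq
    have h1 : l' = [] := by
      by_contra hne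
      refine h.prod_notMem hl' hne ?_
      have : l'.prod = e'⁻¹ * e := by
        rw [List.prod_nil, one_mul] at heq
        rw [heq]; group
      rw [this]
      exact mul_mem (inv_mem he') he
    subst h1
    simpa using he'
  | cons x l ih =>
    intro l' b b' e e' hl hl' he he' heq
    cases l' with
    | nil =>
      exfalso
      refine h.prod_notMem hl (List.cons_ne_nil _ _) ?_
      have : (x :: l).prod = e' * e⁻¹ := by
        rw [List.prod_nil, mul_one] at heq
        rw [← heq]; group
      rw [this]
      exact mul_mem he' (inv_mem he)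
    | cons x' l' =>
      have hp : (iv l).prod * (x⁻¹ * e' * x' * l'.prod) = e := by
        rw [iv_prod]
        rw [List.prod_cons, List.prod_cons] at heq
        have : x⁻¹ * e' * x' * l'.prod = l.prod * e := by
          have h2 := congrArg (fun t => x⁻¹ * t) heq
          simp only [mul_assoc, inv_mul_cancel_left] at h2 ⊢
          exact h2.symm
        rw [this]; group
      have hu : x⁻¹ * e' * x' ∈ X ⊓ Y := by
        by_contra hu
        by_cases hb : b = b'
        · subst hb
          have h1 : Lt X Y b (x⁻¹ * e' * x') := lt_of_notMem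
            (mul_mem (mul_mem (inv_mem hl.1.1) (mem_side_of_mem_E he' b)) hl'.1.1) hu
          refine h.prod_notMem (b := fl (!b) (l.length + 1))
            (l := iv l ++ (x⁻¹ * e' * x') :: l') ?_ (by simp) ?_
          · rw [red_append]
            refine ⟨hl.2.iv, ?_⟩
            rw [iv_length, fl_fl, red_cons]
            have : Odd (l.length + 1 + l.length) := ⟨l.length, by ring⟩
            rw [fl_odd this, Bool.not_not]
            exact ⟨h1, hl'.2⟩
          · rw [List.prod_append, List.prod_cons, hp]
            exact he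
        · have hb' : b' = !b := by cases b <;> cases b' <;> simp_all
          subst hb'
          refine h.prod_notMem (b := fl b (l.length + 1 + 1))
            (l := iv (x :: l) ++ (e' * x') :: l') ?_ (by simp) ?_
          · rw [red_append]
            refine ⟨by simpa using hl.iv, ?_⟩
            rw [iv_length, fl_fl, red_cons, List.length_cons]
            have : Odd (l.length + 1 + 1 + (l.length + 1)) := ⟨l.length + 1, by ring⟩
            rw [fl_odd this]
            exact ⟨hl'.1.mul_left he', hl'.2⟩
          · rw [List.prod_append, List.prod_cons, iv_cons, List.prod_append, List.prod_singleton]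
            have : (iv l).prod * x⁻¹ * (e' * x' * l'.prod) = e := by
              rw [← hp]; group
            rw [this]
            exact he
      have h3 : l.prod * e = (x⁻¹ * e' * x') * l'.prod := by
        rw [← hp, iv_prod]; group
      obtain ⟨h4, h5⟩ := ih hl.2 hl'.2 he hu h3
      refine ⟨by simp [h4], fun i => ?_⟩
      cases i with
      | zero => simpa using he'
      | succ i =>
        have := h5 i
        rw [List.take_succ_cons, List.take_succ_cons, List.prod_cons, List.prod_cons]
        convert this using 1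
        group

/-- a word with at least two letters is not in a factor -/
theorem long_notMem {b : Bool} {l : List G} (hl : Red X Y b l) (h2 : 2 ≤ l.length) (c : Bool) :
    l.prod ∉ side X Y c := by
  intro hc
  by_cases hE : l.prod ∈ X ⊓ Y
  · exact h.prod_notMem hl (by rintro rfl; simp at h2) hE
  · have h1 : Red X Y c [l.prod] := red_singleton.2 (lt_of_notMem hc hE)
    have := (h.unique (e := 1) (e' := 1) hl h1 (one_mem _) (one_mem _) (by simp)).1
    simp at this
    omega

end Amalg

/-- right multiplication by an element of a factor -/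
theorem mul_letter {l : List G} {b c : Bool} {e y : G} (hl : Red X Y b l) (he : e ∈ X ⊓ Y)
    (hy : y ∈ side X Y c) : ∃ (l' : List G) (b' : Bool) (e' : G), Red X Y b' l' ∧ e' ∈ X ⊓ Y ∧
      l.prod * e * y = l'.prod * e' ∧ l'.take (l.length - 1) = l.take (l.length - 1) ∧
      l.length - 1 ≤ l'.length ∧ l'.length ≤ l.length + 1 ∧ (l ≠ [] → b' = b) := by
  have hy' : e * y ∈ side X Y c := mul_mem (mem_side_of_mem_E he c) hy
  by_cases hE : e * y ∈ X ⊓ Y
  · exact ⟨l, b, e * y, hl, hE, by group, rfl, by omega, by omega, fun _ => rfl⟩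
  have hlt : Lt X Y c (e * y) := lt_of_notMem hy' hE
  rcases List.eq_nil_or_concat' l with rfl | ⟨l0, z, rfl⟩
  · exact ⟨[e * y], c, 1, red_singleton.2 hlt, one_mem _, by simp, by simp, by simp, by simp,
      fun h => absurd rfl h⟩
  rw [red_append, red_singleton] at hl
  have hlen : (l0 ++ [z]).length - 1 = l0.length := by simp
  have htake : (l0 ++ [z]).take l0.length = l0 := by simp
  rw [hlen, htake]
  by_cases hcd : c = fl b l0.length
  · subst hcd
    by_cases hz : z * (e * y) ∈ X ⊓ Y
    · refine ⟨l0, b, z * (e * y), hl.1, hz, ?_, by simp, le_rfl, by simp; omega, fun _ => rfl⟩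
      rw [List.prod_append, List.prod_singleton]
      group
    · refine ⟨l0 ++ [z * (e * y)], b, 1, ?_, one_mem _, ?_, by simp, by simp, by simp,
        fun _ => rfl⟩
      · rw [red_append, red_singleton]
        exact ⟨hl.1, lt_of_notMem (mul_mem hl.2.1 hlt.1) hz⟩
      · rw [List.prod_append, List.prod_singleton, List.prod_append, List.prod_singleton]
        group
  · have hcd' : c = fl b (l0.length + 1) := by
      rw [fl_succ']
      generalize fl b l0.length = d at hcd
      cases c <;> cases d <;> simp_all
    refine ⟨(l0 ++ [z]) ++ [e * y], b, 1, ?_, one_mem _, ?_, by simp, by simp, by simp,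
      fun _ => rfl⟩
    · rw [red_append, red_append, red_singleton, red_singleton]
      refine ⟨hl, ?_⟩
      simpa [← hcd'] using hlt
    · rw [List.prod_append (l₁ := l0 ++ [z]), List.prod_singleton]
      group

/-- right multiplication by a product of elements of the factors -/
theorem mul_word (m : List G) : ∀ {l : List G} {b : Bool} {e : G}, Red X Y b l → e ∈ X ⊓ Y →
    (∀ y ∈ m, ∃ c, y ∈ side X Y c) →
    ∃ (l' : List G) (b' : Bool) (e' : G), Red X Y b' l' ∧ e' ∈ X ⊓ Y ∧
      l.prod * e * m.prod = l'.prod * e' ∧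
      l'.take (l.length - m.length) = l.take (l.length - m.length) ∧
      l.length - m.length ≤ l'.length ∧ l'.length ≤ l.length + m.length ∧
      (m.length < l.length → b' = b) := by
  induction m with
  | nil =>
    intro l b e hl he _
    exact ⟨l, b, e, hl, he, by simp, by simp, by simp, by simp, fun _ => rfl⟩
  | cons y m ih =>
    intro l b e hl he hm
    obtain ⟨c, hc⟩ := hm y (by simp)
    obtain ⟨l1, b1, e1, h1, h2, h3, h4, h5, h6, h7⟩ := mul_letter hl he hc
    obtain ⟨l2, b2, e2, k1, k2, k3, k4, k5, k6, k7⟩ :=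
      ih h1 h2 (fun z hz => hm z (by simp [hz]))
    refine ⟨l2, b2, e2, k1, k2, ?_, ?_, ?_, ?_, ?_⟩
    · rw [← k3, List.prod_cons, ← h3]; group
    · have hA : l.length - (y :: m).length ≤ l1.length - m.length := by
        simp only [List.length_cons]; omega
      have hB : l.length - (y :: m).length ≤ l.length - 1 := by
        simp only [List.length_cons]; omega
      have e1 : l2.take (l.length - (y :: m).length) =
          (l2.take (l1.length - m.length)).take (l.length - (y :: m).length) := by
        rw [List.take_take, min_eq_left hA]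
      have e2 : l.take (l.length - (y :: m).length) =
          (l.take (l.length - 1)).take (l.length - (y :: m).length) := by
        rw [List.take_take, min_eq_left hB]
      rw [e1, k4, List.take_take, min_eq_left hA, e2, ← h4, List.take_take, min_eq_left hB]
    · simp only [List.length_cons]; omega
    · simp only [List.length_cons]; omega
    · intro hlt
      simp only [List.length_cons] at hlt
      rw [k7 (by omega), h7 (by rintro rfl; simp at hlt)]

/-- every element of `X ⊔ Y` has a normal form (for arbitrary subgroups `X`, `Y`) -/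
theorem exists_nf {g : G} (hg : g ∈ X ⊔ Y) : ∃ (l : List G) (b : Bool) (e : G), Red X Y b l ∧
    e ∈ X ⊓ Y ∧ g = l.prod * e := by
  rw [Subgroup.sup_eq_closure] at hg
  obtain ⟨m, hm1, hm2⟩ : ∃ m : List G, (∀ y ∈ m, ∃ c, y ∈ side X Y c) ∧ m.prod = g := by
    induction hg using Subgroup.closure_induction with
    | mem x hx =>
      refine ⟨[x], fun y hy => ?_, by simp⟩
      rw [List.mem_singleton.1 hy]
      rcases hx with hx | hx
      · exact ⟨true, hx⟩
      · exact ⟨false, hx⟩
    | one => exact ⟨[], by simp, rfl⟩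
    | mul x y _ _ hx hy =>
      obtain ⟨m, h1, rfl⟩ := hx
      obtain ⟨m', h2, rfl⟩ := hy
      refine ⟨m ++ m', fun z hz => ?_, by simp⟩
      rcases List.mem_append.1 hz with hz | hz
      · exact h1 z hz
      · exact h2 z hz
    | inv x _ hx =>
      obtain ⟨m, h1, rfl⟩ := hx
      refine ⟨iv m, fun z hz => ?_, iv_prod m⟩
      simp only [iv, List.mem_reverse, List.mem_map] at hz
      obtain ⟨a, ha, rfl⟩ := hz
      obtain ⟨c, hc⟩ := h1 a ha
      exact ⟨c, inv_mem hc⟩
  obtain ⟨l, b, e, h1, h2, h3, -⟩ := mul_word (X := X) (Y := Y) m (l := []) (b := true) (e := 1)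
    (red_nil _) (one_mem _) hm1
  refine ⟨l, b, e, h1, h2, ?_⟩
  rw [← h3, hm2]; simp

end Pool.MP_a3a325_al.Am
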